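import Mathlib

/-!
# S03669 (MP_0170ef_an): project statements

Problem: `v'' + (2/t) v' + v^4 + v^7 = 0`, `v(0) = a`, `v'(0) = 0`, `T(a)` = first zero.
The set `{a : T(a) < ∞}` has the two lowest components `(0,α₁)`, `(α₁,α₂)`
(`α₁ ≈ 1.5347`, `α₂ ≈ 1.847`), and `T` is strictly decreasing then strictly increasing on each.

Throughout we use `p = t v`, `q = p'`, so that the equation is `(t v)' = q`, `q' = - t f(v)`.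
In logarithmic time `s = log t`, `x = t^{2/3} v`, `y = t^{2/3} q` satisfy
`x' = y - x/3`, `y' = (2/3) y - x^4 - e^{-2s} x^7`.

The pieces `P1 … P10` below are independent of each other (each may be proved assuming nothing,
and where a piece would profit from another one, that one may be taken as a hypothesis:
prove `P1_exists → P2_fam` etc.; the allowed hypotheses are said in the doc comments).
-/

set_option autoImplicit false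

namespace Pool.Agent.W2helper59.LN

open Set

/-! ## Definitions -/

/-- `(v,q)` solves `(t v)' = q`, `q' = - t F(t,v)` on `[t0,t1]` (used with `0 ≤ t0`). -/
structure SolOn {E : Type*} [NormedAddCommGroup E] [NormedSpace ℝ E]
    (F : ℝ → E → E) (t0 t1 : ℝ) (v q : ℝ → E) : Prop where
  cv : ContinuousOn v (Icc t0 t1)
  cq : ContinuousOn q (Icc t0 t1)
  dv : ∀ t ∈ Ioo t0 t1, HasDerivAt (fun s : ℝ => s • v s) (q t) t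
  dq : ∀ t ∈ Ioo t0 t1, HasDerivAt q (-(t • F t (v t))) t

/-- `f(v) = v^4 + v^7` cut off at negative values. -/
noncomputable def fp (v : ℝ) : ℝ := (max v 0) ^ 4 + (max v 0) ^ 7

/-- The global real solution family (`a > 0`), for the nonlinearity `fp`; after the first zero of
`V a` the function `t * V a t` is affine with negative slope. -/
structure Fam (V Q : ℝ → ℝ → ℝ) : Prop where
  v0 : ∀ a, 0 < a → V a 0 = a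
  q0 : ∀ a, 0 < a → Q a 0 = a
  sol : ∀ a, 0 < a → ∀ T, 0 < T → SolOn (fun _ v => fp v) 0 T (V a) (Q a)
  lip : ∀ M T, 0 < M → 0 < T → ∃ C, 0 < C ∧ ∀ a ∈ Ioc 0 M, ∀ b ∈ Ioc 0 M, ∀ t ∈ Icc 0 T,
      |V a t - V b t| ≤ C * |a - b| ∧ |Q a t - Q b t| ≤ C * |a - b|
  uniq : ∀ a, 0 < a → ∀ T, 0 < T → ∀ v q : ℝ → ℝ, SolOn (fun _ v => fp v) 0 T v q → v 0 = a →
      ∀ t ∈ Icc 0 T, v t = V a t ∧ q t = Q a t

/-- `T` is the first zero of `V a`. -/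
def IsT (V : ℝ → ℝ → ℝ) (a T : ℝ) : Prop := 0 < T ∧ V a T = 0 ∧ ∀ t ∈ Ico 0 T, 0 < V a t

/-- every `V a`, `a ∈ I`, has a zero -/
def ZOn (V : ℝ → ℝ → ℝ) (I : Set ℝ) : Prop := ∀ a ∈ I, ∃ T, IsT V a T

/-- the first zero is strictly decreasing in `a ∈ I` -/
def DecOn (V : ℝ → ℝ → ℝ) (I : Set ℝ) : Prop :=
  ∀ a ∈ I, ∀ b ∈ I, a < b → ∀ Ta Tb, IsT V a Ta → IsT V b Tb → Tb < Ta

/-- the first zero is strictly increasing in `a ∈ I` -/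
def IncOn (V : ℝ → ℝ → ℝ) (I : Set ℝ) : Prop :=
  ∀ a ∈ I, ∀ b ∈ I, a < b → ∀ Ta Tb, IsT V a Ta → IsT V b Tb → Ta < Tb

/-- the set of `a` with a zero is open and the first zero is a continuous function of `a` -/
def TCont (V : ℝ → ℝ → ℝ) : Prop :=
  ∀ b, 0 < b → ∀ Tb, IsT V b Tb → ∀ η > 0, ∃ δ > 0, ∀ a, |a - b| < δ →
    0 < a ∧ ∃ Ta, IsT V a Ta ∧ |Ta - Tb| < η

/-- The mathematical main theorem. -/
def MA (V : ℝ → ℝ → ℝ) : Prop := ∃ β1 α1 β2 α2 : ℝ, 0 < β1 ∧ β1 < α1 ∧ α1 < β2 ∧ β2 < α2 ∧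
  ZOn V (Ioo 0 α1) ∧ (∀ T, ¬ IsT V α1 T) ∧ ZOn V (Ioo α1 α2) ∧ (∀ T, ¬ IsT V α2 T) ∧
  DecOn V (Ioc 0 β1) ∧ IncOn V (Ico β1 α1) ∧ DecOn V (Ioc α1 β2) ∧ IncOn V (Ico β2 α2)

/-- planar flow in logarithmic time (global in `s ∈ ℝ`) -/
structure PSol (x y : ℝ → ℝ) : Prop where
  dx : ∀ s, HasDerivAt x (y s - x s / 3) s
  dy : ∀ s, HasDerivAt y
    (2 / 3 * y s - (max (x s) 0) ^ 4 - Real.exp (-2 * s) * (max (x s) 0) ^ 7) s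

/-- `x_a(s) = t^{2/3} V a t` with `t = e^s` (apply it to `V` to get `x` and to `Q` to get `y`). -/
noncomputable def LX (V : ℝ → ℝ → ℝ) (a s : ℝ) : ℝ := Real.exp (2 / 3 * s) * V a (Real.exp s)

/-- exit at height `ε`: `s` is the first time after `s0` where `y = ε`, the orbit being in the
box `0 < y < ε`, `0 < x < xm`, `y ≤ x` before. -/
def Exit (x y : ℝ → ℝ → ℝ) (s0 ε xm a s : ℝ) : Prop :=
  s0 < s ∧ y a s = ε ∧ (∀ r ∈ Ico s0 s, 0 < y a r ∧ y a r < ε) ∧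
    (∀ r ∈ Icc s0 s, 0 < x a r ∧ x a r < xm ∧ y a r ≤ x a r)

/-- uniform Lipschitz dependence on the parameter `a ∈ [A,B]`, `s ∈ [s0,S]` -/
def ULip (x y : ℝ → ℝ → ℝ) (A B s0 : ℝ) : Prop :=
  ∀ S, s0 < S → ∃ C, 0 < C ∧ ∀ a ∈ Icc A B, ∀ b ∈ Icc A B, ∀ s ∈ Icc s0 S,
    |x a s - x b s| ≤ C * |a - b| ∧ |y a s - y b s| ≤ C * |a - b|

/-- the pair cone: `0 < y_b - y_a`, `c1 (y_b-y_a) ≤ x_b - x_a ≤ c2 (y_b - y_a)` at time `s` -/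
def Cone (x y : ℝ → ℝ → ℝ) (c1 c2 a b s : ℝ) : Prop :=
  0 < y b s - y a s ∧ c1 * (y b s - y a s) ≤ x b s - x a s ∧
    x b s - x a s ≤ c2 * (y b s - y a s)

/-! ## P1: existence and stability -/

/-- **P1a** (existence). Contraction (Picard iteration in a Bielecki norm `sup e^{-λt}‖v‖`, or
iterate of the map) for
`v(t) = ℓ(t) - ∫_{t0}^t (s - s^2/t) F(s, v s) ds`, `ℓ(t) = (t0 v0 + q0 (t - t0))/t` (and
`ℓ ≡ v0 = q0` if `t0 = 0`), then `q(t) = q0 - ∫_{t0}^t s F(s, v s) ds`.  The kernel satisfies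
`|s - s^2/t| ≤ s ≤ t1`.  `t v(t) = t0 v0 + q0 (t-t0) - ∫_{t0}^t (t - s) s F(s,v s) ds`
`= t0 v0 + ∫_{t0}^t q`.  (Alternative: Picard iteration for the pair `(v,q)` with
`v(t) = (t0 v0 + ∫_{t0}^t q)/t`, or any existing ODE library of the tree.) -/
def P1_exists : Prop :=
  ∀ (E : Type) [NormedAddCommGroup E] [NormedSpace ℝ E] [CompleteSpace E]
    (F : ℝ → E → E) (K : NNReal) (t0 t1 : ℝ) (v0 q0 : E),
    0 ≤ t0 → t0 < t1 → Continuous (Function.uncurry F) → (∀ t, LipschitzWith K (F t)) →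
    (t0 = 0 → v0 = q0) →
    ∃ v q : ℝ → E, SolOn F t0 t1 v q ∧ v t0 = v0 ∧ q t0 = q0

/-- **P1b** (stability; gives uniqueness and Lipschitz dependence).
Put `P = t(v - w)`, `P' = q - r`, `M(t) = sup_{[t0,t]} ‖q - r‖`.  Then
`t‖v - w‖ ≤ t0 ‖v0 - w0‖ + (t - t0) M(t)`, hence `‖v - w‖(t) ≤ ‖v0-w0‖ + M(t)` (also for `t0 = 0`,
where at `t = 0` use continuity), and
`‖q-r‖(t) ≤ ‖q0-r0‖ + ∫_{t0}^t s (K ‖v-w‖ + σ) ds`, so by Gronwall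
`M(t) ≤ (‖q0-r0‖ + (K ‖v0-w0‖ + σ) t1²) e^{K t1²}`. -/
def P1_stab : Prop :=
  ∀ (K t0 t1 : ℝ), 0 ≤ K → 0 ≤ t0 → t0 < t1 → ∃ C : ℝ, 0 < C ∧
    ∀ (E : Type) [NormedAddCommGroup E] [NormedSpace ℝ E]
      (F G : ℝ → E → E) (v q w r : ℝ → E) (σ : ℝ),
      SolOn F t0 t1 v q → SolOn G t0 t1 w r → 0 ≤ σ →
      (∀ t ∈ Icc t0 t1, ‖F t (v t) - G t (w t)‖ ≤ K * ‖v t - w t‖ + σ) →
      ∀ t ∈ Icc t0 t1, ‖v t - w t‖ ≤ C * (‖v t0 - w t0‖ + ‖q t0 - r t0‖ + σ) ∧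
        ‖q t - r t‖ ≤ C * (‖v t0 - w t0‖ + ‖q t0 - r t0‖ + σ)

/-- **P1c**. For a solution starting at `t0 = 0` one has `v 0 = q 0`
(`t v(t) = ∫_0^t q` because `t v → 0`, so `v(t)` is the mean of `q` on `[0,t]`). -/
def P1_zero : Prop :=
  ∀ (E : Type) [NormedAddCommGroup E] [NormedSpace ℝ E]
    (F : ℝ → E → E) (t1 : ℝ) (v q : ℝ → E), 0 < t1 → SolOn F 0 t1 v q → v 0 = q 0

/-! ## P2: the real family -/

/-- **P2** (may assume `P1_exists`, `P1_stab`, `P1_zero`).  For `a > 0`, `T > 0` solve with the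
globally Lipschitz `F(v) = fp (min v a)`.  Since `F ≥ 0`, `q' ≤ 0`, so `q ≤ a`, and
`t v = ∫ q ≤ a t`, so `v ≤ a` and `F(v) = fp v`.  Any solution for `fp` on `[0,T]` with `v 0 = a`
satisfies `q 0 = v 0 = a` (P1c), `v ≤ a`, hence uniqueness by P1b; glue over `T = 1,2,3,…`.
`lip`: `fp` is Lipschitz on `(-∞, M]`, use P1b. -/
def P2_fam : Prop := ∃ V Q : ℝ → ℝ → ℝ, Fam V Q

/-- **P2c**.  Continuity of the first zero.  At `T = T_b`: `q_b` is nonincreasing and `q_b(T) < 0`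
(otherwise `q_b ≥ 0` on `[0,T]` and `T V b T = ∫ q_b ≥ b·(something) > 0`: indeed `q_b(0)=b>0`), so
`V b < 0` on `(T, ∞)` (`(tV)' = q ≤ q_b(T) < 0` there).  For `η` small `V b > c` on `[0,T-η]`,
`V b (T+η) < -c`; by `lip` the same for `a` near `b` (with `c/2`). First zero of `V a`:
intermediate value + infimum of the closed set of zeros. -/
def P2_cont : Prop := ∀ V Q : ℝ → ℝ → ℝ, Fam V Q → TCont V

/-! ## P3: reduction of the frozen statement to `MA` -/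

/-- **P3**.  `(l,a) ∈ S ↔ 0 < l ∧ 0 < a ∧ IsT V a (√l)`.
(→) given `u`, `v(t) = u(t/√l)`, `q = v + t v'` is a solution on `[0,√l]` (`u ≥ 0` on `[0,1]`, so
`fp (u) = u^4+u^7`), use `uniq`.
(←) `u(r) = V a (|r|√l)`: it is `C²` on `(-1-ε,1+ε)` as even extension: for `t > 0`
`v = V a`, `v' = (q - v)/t = -t^{-2}∫_0^t s² fp(v(s)) ds` and `v'' = -(2/t) v' - fp(v)`, so
`v'(t) → 0`, `v''(t) → -fp(a)/3` as `t → 0+`.
Topology: `Λ(a) = T(a)²` is continuous on the open set `Z = {a>0 : T(a)<∞}` (`TCont`), `S` is the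
graph of `Λ` over `Z`, and the components of `S` are the graphs over the components of `Z`
(`(0,α1)` and `(α1,α2)` are components of `Z` because `α1, α2 ∉ Z`).
May assume `P2_cont`. -/
def P3_red : Prop := ∀ V Q : ℝ → ℝ → ℝ, Fam V Q → TCont V → MA V →
    ∀ S : Set (ℝ × ℝ),
      (∀ l a : ℝ, (l, a) ∈ S ↔
        (0 < l ∧ ∃ u : ℝ → ℝ, ∃ ε : ℝ, 0 < ε ∧
          ContDiffOn ℝ 2 u (Set.Ioo (-ε) (1 + ε)) ∧
          u 0 = a ∧ deriv u 0 = 0 ∧ u 1 = 0 ∧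
          (∀ r ∈ Set.Ico (0:ℝ) 1, 0 < u r) ∧
          ∀ r ∈ Set.Ioc (0:ℝ) 1,
            deriv (deriv u) r + 2 / r * deriv u r + l * (u r ^ 4 + u r ^ 7) = 0)) →
      ∃ x1 ∈ S, ∃ x2 ∈ S,
        connectedComponentIn S x1 ≠ connectedComponentIn S x2 ∧
        (∀ y ∈ S, y ∉ connectedComponentIn S x1 → y ∉ connectedComponentIn S x2 →
          ∀ z ∈ connectedComponentIn S x1 ∪ connectedComponentIn S x2, z.2 < y.2) ∧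
        ∀ x ∈ ({x1, x2} : Set (ℝ × ℝ)),
          ∃ t ∈ connectedComponentIn S x,
            (∀ y ∈ connectedComponentIn S x, ∀ z ∈ connectedComponentIn S x,
              y.2 < z.2 → z.2 ≤ t.2 → z.1 < y.1) ∧
            (∀ y ∈ connectedComponentIn S x, ∀ z ∈ connectedComponentIn S x,
              y.2 < z.2 → t.2 ≤ y.2 → y.1 < z.1)

/-! ## P4: the a-posteriori step lemma (complex valued) -/

/-- **P4a** (no bootstrap).  `P = t(v-w)`, `P' = q - r`.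
`P'' = -t(F(v)-F(w)) - d = -g² P - e`, `‖e‖ ≤ θ‖P‖ + ε`.  With `N = g²‖P‖² + ‖P'‖²`:
`N' = 2 Re ⟨P', -e⟩ ≤ 2‖P'‖(θ‖P‖ + ε) ≤ (θ/g) N + 2 ε √N`, i.e.
`√N(t) ≤ (√N(a) + ε (t-a)) e^{θ(t-a)/(2g)}`  (compare `N` with `Φ²`,
`Φ' = (θ/2g)Φ + ε + κ`, `Φ(a) = μ0 + κ`, and let `κ → 0`). -/
def P4_step : Prop :=
  ∀ (F G : ℝ → ℂ → ℂ) (a b g θ ε μ0 : ℝ) (v q w r : ℝ → ℂ),
    0 ≤ a → a < b → 0 < g → 0 ≤ θ → 0 ≤ ε → 0 ≤ μ0 →
    SolOn F a b v q → SolOn G a b w r →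
    (∀ t ∈ Icc a b, ‖t • (F t (v t) - G t (w t) - ((g ^ 2 : ℝ) : ℂ) * (v t - w t))‖
        ≤ θ * (t * ‖v t - w t‖) + ε) →
    (g * (a * ‖v a - w a‖)) ^ 2 + ‖q a - r a‖ ^ 2 ≤ μ0 ^ 2 →
    ∀ t ∈ Icc a b, (g * (t * ‖v t - w t‖)) ^ 2 + ‖q t - r t‖ ^ 2
      ≤ ((μ0 + ε * (t - a)) * Real.exp (θ * (t - a) / (2 * g))) ^ 2

/-- **P4b** (with bootstrap; may assume P4a).  The estimate of `F` is only assumed in the tube
`‖z - w t‖ ≤ ρ` and the conclusion shows that `v` stays in the tube.  If `0 < a`: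
`‖v-w‖ ≤ μ1/(g a) < ρ`.  If `a = 0`: `v 0 - w 0 = q 0 - r 0` (P1c) and
`t‖v-w‖ ≤ ∫_0^t ‖q-r‖ ≤ t μ1`.  Continuity argument: let `t*` be the sup of the `t` such that
`‖v - w‖ < ρ` on `[a,t]`. -/
def P4_boot : Prop :=
  ∀ (F G : ℝ → ℂ → ℂ) (a b g θ ε ρ μ0 μ1 : ℝ) (v q w r : ℝ → ℂ),
    0 ≤ a → a < b → 0 < g → 0 ≤ θ → 0 ≤ ε → 0 ≤ μ0 → 0 < ρ →
    SolOn F a b v q → SolOn G a b w r →
    (∀ t ∈ Icc a b, ∀ z : ℂ, ‖z - w t‖ ≤ ρ →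
      ‖t • (F t z - G t (w t) - ((g ^ 2 : ℝ) : ℂ) * (z - w t))‖
        ≤ θ * (t * ‖z - w t‖) + ε) →
    (g * (a * ‖v a - w a‖)) ^ 2 + ‖q a - r a‖ ^ 2 ≤ μ0 ^ 2 →
    (μ0 + ε * (b - a)) * Real.exp (θ * (b - a) / (2 * g)) ≤ μ1 →
    ((0 < a ∧ μ1 < g * a * ρ) ∨ (a = 0 ∧ μ1 < ρ)) →
    ∀ t ∈ Icc a b, (g * (t * ‖v t - w t‖)) ^ 2 + ‖q t - r t‖ ^ 2 ≤ μ1 ^ 2 ∧ ‖v t - w t‖ < ρ

/-! ## P5: holomorphic dependence and realness -/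

/-- **P5a** (holomorphy; may assume P1a, P1b).  Fix `δ` in the open disc.  Coefficient
`c(t) = ∂_v f = 4w³ + 7Bw⁶` along `w δ`, source `B1 w⁷`.  Let `(X,Y)` solve the linear variational
equation `(tX)' = Y`, `Y' = -t (c X + B1 w^7)`, `X(t0) = A1`, `Y(t0) = Q1` (P1a; extend `c` from
`[t0,t1]` continuously; if `t0 = 0` then `A1 = Q1` follows from P1c).
By P1b `‖w(δ+h) - w δ‖ ≤ C|h|` (the difference of the nonlinearities is bounded by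
`K‖w(δ+h) - w δ‖ + |h| |B1| R⁷`).  Then `w(δ+h)` is compared with `w δ + h X`:
`‖f_{δ+h}(w(δ+h)) - [f_δ(w δ) + h (c X + B1 w^7)]‖ ≤ K ‖w(δ+h) - w δ - hX‖ + C'|h|²`,
so by P1b `‖w(δ+h) - w δ - hX‖ ≤ C''|h|²`, same for `χ`. Hence complex differentiability. -/
def P5_hol : Prop :=
  ∀ (t0 t1 R : ℝ) (A0 A1 Q0 Q1 B0 B1 : ℂ) (w χ : ℂ → ℝ → ℂ),
    0 ≤ t0 → t0 < t1 →
    (∀ δ : ℂ, ‖δ‖ ≤ 1 →
      SolOn (fun _ v => v ^ 4 + (B0 + B1 * δ) * v ^ 7) t0 t1 (w δ) (χ δ)) →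
    (∀ δ : ℂ, ‖δ‖ ≤ 1 → w δ t0 = A0 + A1 * δ ∧ χ δ t0 = Q0 + Q1 * δ) →
    (∀ δ : ℂ, ‖δ‖ ≤ 1 → ∀ t ∈ Icc t0 t1, ‖w δ t‖ ≤ R) →
    ∀ t ∈ Icc t0 t1, DifferentiableOn ℂ (fun δ => w δ t) (Metric.ball 0 1) ∧
      DifferentiableOn ℂ (fun δ => χ δ t) (Metric.ball 0 1)

/-- **P5b** (realness; may assume P1b).  The complex conjugate of `(v,q)` solves the same problem
with the same initial data, and `v` is bounded, so by P1b they coincide. -/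
def P5_real : Prop :=
  ∀ (t0 t1 Bv : ℝ) (v q : ℝ → ℂ), 0 ≤ t0 → t0 < t1 →
    SolOn (fun _ v => v ^ 4 + (Bv : ℂ) * v ^ 7) t0 t1 v q →
    (v t0).im = 0 → (q t0).im = 0 →
    (∀ t ∈ Icc t0 t1, (v t).im = 0 ∧ (q t).im = 0) ∧
    SolOn (fun _ v => v ^ 4 + Bv * v ^ 7) t0 t1 (fun t => (v t).re) (fun t => (q t).re)

/-- **P5c** (existence of the complex family with cut-off; may assume P1a).  `sq R z` clamps real
and imaginary part to `[-R,R]`; it is 1-Lipschitz and `f ∘ sq R` is Lipschitz. -/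
noncomputable def sq (R : ℝ) (z : ℂ) : ℂ :=
  ⟨max (-R) (min R z.re), max (-R) (min R z.im)⟩

def P5_exists : Prop :=
  ∀ (t0 t1 R : ℝ) (v0 q0 Bv : ℂ), 0 ≤ t0 → t0 < t1 → 0 < R → (t0 = 0 → v0 = q0) →
    ∃ v q : ℝ → ℂ, SolOn (fun _ z => (sq R z) ^ 4 + Bv * (sq R z) ^ 7) t0 t1 v q ∧
      v t0 = v0 ∧ q t0 = q0

/-! ## P6: the planar window theorem -/

/-- **P6**.  Notation `z0 = e^{-2 s0}`, `Gm = 4xm³+7 z0 xm⁶`, `C4 = xm⁴ + z0 xm⁷`.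

(1) *Cone.* For `a<b` put `X = x_b-x_a`, `Y = y_b-y_a`. As long as `x_a, x_b ∈ [0,xm]` on `[s0,s]`:
`X' = Y - X/3`, `Y' = (2/3)Y - G X`, `0 ≤ G ≤ Gm`, where `G` is the divided difference of
`x⁴ + e^{-2s}x⁷` (`G X` = difference).  For `u = c2 Y - X`:
`u' = (c2-1-c2² G) Y + (c2 G - 1/3) u`, for `ℓ = X - c1 Y`:
`ℓ' = (1-c1+c1² G) Y + (c1 G - 1/3) ℓ`, and `Y' ≥ (2/3 - c2 Gm) Y = λ Y` while `X ≤ c2 Y`.
So the cone is invariant and `Y(s) ≥ Y(s0) e^{λ(s-s0)}` (λ>0).  (At `u = 0 < Y` one has `u' > 0`,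
at `ℓ = 0 < Y` one has `ℓ' > 0`: all inequalities are strict.)

(2) `κ = x - y`: `κ' = -κ/3 + x⁴ + e^{-2s}x⁷` (for `x ≥ 0`), so `κ ≥ 0` persists (while `x ≥ 0`).

(3) *Trap.* If `y ≤ ε`, `x > 0` on `[s0,s]` then `x < xm` on `[s0,s]`.  Suppose `s*` is the first
time with `x = xm`: then `x' ≥ 0`, so `y(s*) ≥ xm/3 > 0`; so `y > 0` on `[s0,s*]` (`y ≤ 0` persists:
`y' ≤ (2/3) y`).  `Ψ = (κ-3C4)² y` is nonincreasing while `κ > 3C4`, `y>0`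
(`(κ-3C4)' ≤ -(κ-3C4)/3`, `y' ≤ (2/3) y`); and `κ(s*) = xm - y(s*) ≥ xm - ε > 3C4`, so `κ > 3C4` on
`[s0,s*]` (`κ ≤ 3C4` persists).  So
`Ψ(s*) ≤ Ψ(s0) < (xm-3C4-ε)² ε ≤ (xm - 3C4 - y(s*))² y(s*) = Ψ(s*)`, the last inequality because
`y ↦ (c-y)² y`, `c = xm-3C4`, is decreasing on `[c/3, c] ∋ y(s*), ε`.  Contradiction.

(4) `y ≤ 0 < x` at some time implies: `y ≤ 0` afterwards (`y' ≤ (2/3)y`), in fact `y < 0` and
`y → -∞` exponentially, so `x` reaches `0`.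

(5) *Exit at B.*  While `0 ≤ x ≤ xm`: `(e^{-2s/3} y)' ≥ - e^{-2s/3} C4`, so
`e^{-2(s-s0)/3} y(s) ≥ y(s0) - (3/2) C4 > 0`, so `y_B` reaches `ε` (while `y>0`, `x>0`: `x` can only
vanish at a point with `y ≤ 0`).  At `y = ε`, `x<xm`: `y' > 0` by `C4 < (2/3) ε`.

(6) `G0 = {a ∈ [A,B] : y_a(s) < ε ∀ s ≥ s0}`.  `A ∈ G0` (`y_A<0` forever), `B ∉ G0`; it is an initial
segment: for `a<b ∈ G0`, while `x_a ≥ 0` the cone gives `y_a < y_b < ε`; when `x_a` reaches `0`,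
`y_a ≤ 0` and stays so.  Moreover `y_b - y_a ≥ Y0 e^{λ(s-s0)}` unbounded while `y_b < ε`, so `x_a`
does reach `0` (otherwise `y_a → -∞`).  `α = sup G0`.  Openness arguments (with `ULip`) show
`A < α < B`, `α ∈ G0`, and `0 < y_α`, `0 < x_α` for all `s ≥ s0` (if `y_α(s) ≤ 0` at some time, then
`y_α(s') < 0` slightly later and then also for `a > α` near `α`, with `y_a < ε` on `[s0,s']`, so
`a ∈ G0`).

(7) For `a<b<α` with zero times: `x_b > x_a ≥ 0` on `[s0, s_a]` by the cone.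
For `a ∈ (α,B]`: `a ∉ G0`; first time with `y = ε`; before it the pair `(α,a)` is in the cone, so
`y_a > y_α > 0`, `x_a > x_α > 0`; trap and `κ ≥ 0`.  For `a<b ∈ (α,B]`: `y_b>y_a` as long as both
are in the box, so `b` exits first.  Last clause of (O4): `y e^{-2s/3}` is nonincreasing, so
`ε e^{-2s/3} ≤ y(s0) e^{-2s0/3}`; cube it. -/
def P6_window : Prop :=
  ∀ (x y : ℝ → ℝ → ℝ) (A B s0 ε xm c1 c2 z0 Gm C4 : ℝ),
    A < B → 0 < ε → 0 < xm → 0 < c1 → c1 < 1 → 1 < c2 →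
    z0 = Real.exp (-2 * s0) → Gm = 4 * xm ^ 3 + 7 * z0 * xm ^ 6 → C4 = xm ^ 4 + z0 * xm ^ 7 →
    c2 ^ 2 * Gm < c2 - 1 → c2 * Gm < 2 / 3 → C4 < 2 / 3 * ε → 3 * C4 + ε < xm →
    (∀ a ∈ Icc A B, PSol (x a) (y a)) →
    ULip x y A B s0 →
    (∀ a ∈ Icc A B, 0 < x a s0 ∧ x a s0 < xm ∧ y a s0 < ε ∧ y a s0 ≤ x a s0) →
    (∀ a ∈ Icc A B, 0 < y a s0 → 3 * C4 < x a s0 - y a s0 →
      (x a s0 - y a s0 - 3 * C4) ^ 2 * y a s0 < (xm - 3 * C4 - ε) ^ 2 * ε) →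
    (∀ a ∈ Icc A B, ∀ b ∈ Icc A B, a < b →
      0 < y b s0 - y a s0 ∧ c1 * (y b s0 - y a s0) < x b s0 - x a s0 ∧
        x b s0 - x a s0 < c2 * (y b s0 - y a s0)) →
    y A s0 < 0 → 3 / 2 * C4 < y B s0 →
    ∃ α ∈ Ioo A B,
      (∀ s, s0 ≤ s → 0 < y α s ∧ 0 < x α s) ∧
      (∀ a ∈ Ico A α, ∃ s1, s0 < s1 ∧ x a s1 = 0 ∧ ∀ s ∈ Ico s0 s1, 0 < x a s) ∧
      (∀ a ∈ Ico A α, ∀ b ∈ Ico A α, a < b → ∀ sa sb,
        (s0 < sa ∧ x a sa = 0 ∧ ∀ s ∈ Ico s0 sa, 0 < x a s) →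
        (s0 < sb ∧ x b sb = 0 ∧ ∀ s ∈ Ico s0 sb, 0 < x b s) → sa < sb) ∧
      (∀ a ∈ Ioc α B, ∃ s1, Exit x y s0 ε xm a s1 ∧
        Real.exp (-2 * s1) * ε ^ 3 ≤ z0 * (y a s0) ^ 3) ∧
      (∀ a ∈ Ioc α B, ∀ b ∈ Ioc α B, a < b → ∀ sa sb, Exit x y s0 ε xm a sa →
        Exit x y s0 ε xm b sb → sb < sa ∧ ∀ s ∈ Icc s0 sb, Cone x y c1 c2 a b s)

/-! ## P7: local exit estimate (planar) -/

/-- **P7**.  Fix `b ∈ (α,B]` with exit time `sb`, `ξ_b = x b sb ∈ [ε,xm)`.  For `a<b` near `b`,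
`a > α`, exit time `sa > sb` (hypothesis (H)).  `y_b` crosses `ε` transversally
(`y' = (2/3) ε - x⁴ - .. > 0`), so `y_b(sb+η) > ε` for small `η>0`, hence `y_a(sb+η) > ε`
for `a` near `b` and `sa < sb + η`.  On `[sb,sa]` the points `(x_a(s), y_a(s))` are near
`(ξ_b, ε)` uniformly as `a → b-`.  Let `X = x_b(sb) - x_a(sb)`, `Y = ε - y_a(sb) > 0`,
`c = X/Y ∈ [c1,c2]`.  `ξ_a - ξ_b = -X + ∫ x_a' = ∫_{sb}^{sa} (x_a' - c y_a')` and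
`x' - c y' = h(c,x,y,z) = y (1 - 2c/3) - x/3 + c (x⁴ + z x⁷)`, `z = e^{-2s}`; by the hypothesis
(hκ), compactness of `[c1,c2]` and continuity, `|h| ≤ κ` near `(ξ_b,ε,e^{-2 sb})`. -/
def P7_local : Prop :=
  ∀ (x y : ℝ → ℝ → ℝ) (α B s0 ε xm c1 c2 κ : ℝ),
    α < B → 0 < ε → 0 < xm → 0 < c1 → c1 < c2 →
    (∀ ξ ∈ Icc ε xm, ∀ z ∈ Icc (0:ℝ) (Real.exp (-2 * s0)), ξ ^ 4 + z * ξ ^ 7 < 2 / 3 * ε) →
    (∀ c ∈ Icc c1 c2, ∀ ξ ∈ Icc ε xm, ∀ z ∈ Icc (0:ℝ) (Real.exp (-2 * s0)),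
      |ε * (1 - 2 * c / 3) - ξ / 3 + c * (ξ ^ 4 + z * ξ ^ 7)| < κ) →
    (∀ a ∈ Icc α B, PSol (x a) (y a)) →
    ULip x y α B s0 →
    (∀ a ∈ Ioc α B, ∃ s1, Exit x y s0 ε xm a s1) →
    (∀ a ∈ Ioc α B, ∀ b ∈ Ioc α B, a < b → ∀ sa sb, Exit x y s0 ε xm a sa →
        Exit x y s0 ε xm b sb → sb < sa ∧ ∀ s ∈ Icc s0 sb, Cone x y c1 c2 a b s) →
    ∀ b ∈ Ioc α B, ∀ sb, Exit x y s0 ε xm b sb → ∃ η > 0, ∀ a ∈ Ioc α B, b - η < a → a < b →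
      ∀ sa, Exit x y s0 ε xm a sa → sb < sa ∧ |x a sa - x b sb| ≤ κ * (sa - sb)

/-! ## P8: exit region -/

/-- `τ` is the first zero of the exit solution with coefficient `Bv`, started at `t = 1` from
`v = ξ`, `q = ε` (nonlinearity `v⁴ + Bv v⁷`). -/
def ZeroE (ε ξ Bv τ : ℝ) : Prop :=
  1 < τ ∧ ∃ v q : ℝ → ℝ, SolOn (fun _ v => v ^ 4 + Bv * v ^ 7) 1 τ v q ∧ v 1 = ξ ∧ q 1 = ε ∧
    v τ = 0 ∧ ∀ t ∈ Ico 1 τ, 0 < v t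

/-- hypothesis on the exit family, provided by validated numerics -/
def ExitHyp (ε xm Bm L C : ℝ) : Prop :=
  (∀ ξ ∈ Icc ε xm, ∀ Bv ∈ Icc 0 Bm, ∃ τ, ZeroE ε ξ Bv τ) ∧
  ∀ ξ ∈ Icc ε xm, ∀ ξ' ∈ Icc ε xm, ∀ Bv ∈ Icc 0 Bm, ∀ Bv' ∈ Icc 0 Bm, ∀ τ τ',
    ZeroE ε ξ Bv τ → ZeroE ε ξ' Bv' τ' →
      |Real.log τ - Real.log τ'| ≤ L * |ξ - ξ'| + C * |Bv - Bv'|

/-- **P8** (may assume P1b, P1c).
Scaling: if `V a` has exit time `s1` (`t1 = e^{s1}`), then `v̂(τ) = t1^{2/3} V a (t1 τ)`,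
`q̂(τ) = t1^{2/3} Q a (t1 τ)` solve the exit problem with `ξ = x a s1`, `Bv = t1^{-2} = e^{-2s1}`
as long as `V a ≥ 0`; so `IsT V a (t1 τ)` where `ZeroE ε ξ Bv τ` (uniqueness of solutions: P1b on
`[1,τ]`; compare `V a` (nonlinearity `fp`) with the scaled exit solution, which is `> 0` before
`τ`).  Hence `log T(a) = s1(a) + log τ(ξ_a, e^{-2 s1(a)})`.
Left-local monotonicity: for `a<b` near `b`:
`log T(a) - log T(b) ≥ (sa - sb) - L|ξ_a - ξ_b| - C|e^{-2sa} - e^{-2sb}|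
 ≥ (sa-sb)(1 - Lκ - 2 C Bm) > 0`.
Since `T` is continuous on `(α,B]` (`TCont`), left-local strict decrease implies strict decrease:
on `[a,b]` let `c` be a maximum point of `T`; if `c > a`, a point slightly left of `c` has larger
`T`; so `T(a) ≥ T(x)` for all `x ∈ [a,b]`, and `T(b) < T(a') ≤ T(a)` for `a'` slightly left of
`b`. -/
def P8_exit : Prop :=
  ∀ (V Q : ℝ → ℝ → ℝ) (α B s0 ε xm κ Bm L C : ℝ), Fam V Q → TCont V →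
    0 < α → α < B → 0 < ε → ε < xm → 0 ≤ κ → 0 ≤ L → 0 ≤ C →
    ExitHyp ε xm Bm L C → L * κ + 2 * C * Bm < 1 →
    (∀ a ∈ Ioc α B, ∀ t ∈ Icc 0 (Real.exp s0), 0 < V a t) →
    (∀ a ∈ Ioc α B, ∃ s1, Exit (LX V) (LX Q) s0 ε xm a s1 ∧ Real.exp (-2 * s1) ≤ Bm) →
    (∀ a ∈ Ioc α B, ∀ s1, Exit (LX V) (LX Q) s0 ε xm a s1 → Real.exp (-2 * s1) ≤ Bm) →
    (∀ b ∈ Ioc α B, ∀ sb, Exit (LX V) (LX Q) s0 ε xm b sb → ∃ η > 0, ∀ a ∈ Ioc α B,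
      b - η < a → a < b → ∀ sa, Exit (LX V) (LX Q) s0 ε xm a sa →
        sb < sa ∧ |LX V a sa - LX V b sb| ≤ κ * (sa - sb)) →
    ZOn V (Ioc α B) ∧ DecOn V (Ioc α B)

/-! ## P9: translation between `V` and the planar picture -/

/-- **P9a**. -/
def P9_planar : Prop :=
  ∀ (V Q : ℝ → ℝ → ℝ), Fam V Q → (∀ a, 0 < a → PSol (LX V a) (LX Q a)) ∧
    ∀ A B s0, 0 < A → A < B → ULip (LX V) (LX Q) A B s0

/-- **P9b**: zero of `LX V a` after `s0` versus `IsT`; positivity forever implies no zero. -/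
def P9_zero : Prop :=
  ∀ (V Q : ℝ → ℝ → ℝ), Fam V Q → ∀ a s0, 0 < a → (∀ t ∈ Icc 0 (Real.exp s0), 0 < V a t) →
    (∀ s1, s0 < s1 → LX V a s1 = 0 → (∀ s ∈ Ico s0 s1, 0 < LX V a s) → IsT V a (Real.exp s1)) ∧
    (∀ T, IsT V a T → s0 < Real.log T ∧ LX V a (Real.log T) = 0 ∧
      ∀ s ∈ Ico s0 (Real.log T), 0 < LX V a s) ∧
    ((∀ s, s0 ≤ s → 0 < LX V a s) → ∀ T, ¬ IsT V a T)

/-! ## P10: from validated boxes to statements on `V` -/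

/-- Output of the validated integrator: a family of real solutions parametrised by
`δ ∈ [-1/2,1/2]`, with final interval `[a,b]` containing the zero. -/
structure BoxRes (t0 A0 A1 Q0 Q1 B0 B1 a b m M1 : ℝ) (ω κ : ℝ → ℝ → ℝ) : Prop where
  ha : t0 < a
  hab : a < b
  hm : 0 < m
  sol : ∀ δ ∈ Icc (-1/2 : ℝ) (1/2),
    SolOn (fun _ v => v ^ 4 + (B0 + B1 * δ) * v ^ 7) t0 b (ω δ) (κ δ)
  iv : ∀ δ ∈ Icc (-1/2 : ℝ) (1/2), ω δ t0 = A0 + A1 * δ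
  iq : ∀ δ ∈ Icc (-1/2 : ℝ) (1/2), κ δ t0 = Q0 + Q1 * δ
  pos : ∀ δ ∈ Icc (-1/2 : ℝ) (1/2), ∀ t ∈ Icc t0 a, 0 < ω δ t
  neg : ∀ δ ∈ Icc (-1/2 : ℝ) (1/2), ∀ t ∈ Icc a b, κ δ t ≤ -m
  zer : ∀ δ ∈ Icc (-1/2 : ℝ) (1/2), ω δ b < 0
  lip : ∀ δ ∈ Icc (-1/2 : ℝ) (1/2), ∀ δ' ∈ Icc (-1/2 : ℝ) (1/2), ∀ t ∈ Icc a b,
    |ω δ t - ω δ' t| ≤ M1 * |δ - δ'|

/-- **P10a** (regular boxes; may assume P2_cont i.e. `TCont V`, P1b).  `a = α0 + r δ`.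
The solution `ω δ` has a unique zero `T ∈ (a,b)`, is positive before and negative on `(T,b]`
(`(tω)' = κ < 0` on `[a,b]`).  On `[0,T]` it coincides with `V (α0+rδ)` (`uniq`, `fp = v⁴+v⁷` for
`v ≥ 0`).
Dec: for `δ<δ'`: `ω δ' (T) < ω δ (T) = 0` so `T' < T`.  Inc: similarly.
Convex: if `T(b) ≥ max(T(a),T(c))`, `a<b<c`, then `ω_a(T_b) ≤ 0`, `ω_c(T_b) ≤ 0` and strict
convexity gives `0 = ω_b(T_b) < 0`.  So `T(b) < max (T(a),T(c))` for `a<b<c`; with a minimum point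
`β` of the continuous function `T` on the compact interval one gets Dec on `[lo,β]` and Inc on
`[β,hi]`. -/
def P10_regular : Prop :=
  ∀ (V Q : ℝ → ℝ → ℝ) (α0 r a b m M1 : ℝ) (ω κ : ℝ → ℝ → ℝ), Fam V Q → TCont V →
    0 < r → 0 < α0 - r / 2 → BoxRes 0 α0 r α0 r 1 0 a b m M1 ω κ →
    ZOn V (Icc (α0 - r / 2) (α0 + r / 2)) ∧
    ((∀ t ∈ Icc a b, StrictAntiOn (fun δ => ω δ t) (Icc (-1/2) (1/2))) →
      DecOn V (Icc (α0 - r / 2) (α0 + r / 2))) ∧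
    ((∀ t ∈ Icc a b, StrictMonoOn (fun δ => ω δ t) (Icc (-1/2) (1/2))) →
      IncOn V (Icc (α0 - r / 2) (α0 + r / 2))) ∧
    ((∀ t ∈ Icc a b, StrictConvexOn ℝ (Icc (-1/2) (1/2)) (fun δ => ω δ t)) →
      ∃ β ∈ Icc (α0 - r / 2) (α0 + r / 2), DecOn V (Icc (α0 - r / 2) β) ∧
        IncOn V (Icc β (α0 + r / 2)))

/-- **P10b** (region near 0; may assume P1b).  `ω δ` solves the problem with `ω(0) = 1` and
coefficient `β = B0 + B1 δ` (`B1 > 0`, `B0 - B1/2 ≤ 0`).  For `0 < a`, `β = a³ ≤ B0 + B1/2`: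
`V a t = a ω_δ(a^{3/2} t)` (as long as `ω ≥ 0`), so `T(a) = β^{-1/2} S(β)`, `S(β) ∈ (a',b')` the zero
of `ω`.  `|ln S(β) - ln S(β')| ≤ (b/a)(M1/m)|δ-δ'|`: if `S<S'`, then
`m (S'-S) ≤ S' ω'... `: precisely `S' ω_δ(S') = ∫_S^{S'} κ ≤ -m(S'-S)` and
`|ω_δ(S')| = |ω_δ(S') - ω_δ'(S')| ≤ M1|δ-δ'|`, so `S'-S ≤ S' (M1/m)|δ-δ'|` and
`ln S' - ln S ≤ (S'-S)/S`.
And `(1/2)(ln β' - ln β) ≥ (β'-β)/(2β')`, `β'-β = B1(δ'-δ)`; hypothesis (num) gives the strict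
decrease. -/
def P10_small : Prop :=
  ∀ (V Q : ℝ → ℝ → ℝ) (B0 B1 a b m M1 a1 : ℝ) (ω κ : ℝ → ℝ → ℝ), Fam V Q →
    0 < B1 → B0 - B1 / 2 ≤ 0 → 0 < a1 → a1 ^ 3 ≤ B0 + B1 / 2 →
    BoxRes 0 1 0 1 0 B0 B1 a b m M1 ω κ →
    (b / a) * (M1 / m) < B1 / (2 * (B0 + B1 / 2)) →
    ZOn V (Ioc 0 a1) ∧ DecOn V (Ioc 0 a1)

/-- **P10c** (exit boxes; may assume P1b).  The interval `[ε,xm]` is covered by the intervals
`[ξ k - r k/2, ξ k + r k/2]`, `k < n`, consecutive ones sharing an end point; for each `k` and each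
`Bv ∈ [0,Bm]` there is a validated box with `v(1) = ξ k + r k δ`, `q(1) = ε`.
Existence of `τ`: zero of `ω` in `(a k, b k)` (intermediate value; first zero).
Uniqueness of solutions (P1b on `[1,τ]`, all functions are bounded there) identifies any `ZeroE`
with it.  Lipschitz in `ξ` inside a box: as in P10b
(`log τ' - log τ ≤ (b/a)(M1/m)|δ-δ'|`, `|δ-δ'| = |ξ-ξ'|/r`); chain over boxes.
Lipschitz in `Bv` inside a box for fixed `δ`: same argument with `CB|Bv-Bv'|` instead of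
`M1|δ-δ'|`. -/
def P10_exit : Prop :=
  ∀ (n : ℕ) (ξ r a b m M1 CB : ℕ → ℝ) (ε xm Bm L C : ℝ) (ω κ : ℕ → ℝ → ℝ → ℝ → ℝ),
    0 < n → 0 ≤ Bm → 0 < ε → 0 ≤ L → 0 ≤ C →
    (∀ k < n, 0 < r k) →
    ξ 0 - r 0 / 2 ≤ ε → (∀ k, k + 1 < n → ξ k + r k / 2 = ξ (k+1) - r (k+1) / 2) →
    xm ≤ ξ (n-1) + r (n-1) / 2 →
    (∀ k < n, ∀ Bv ∈ Icc 0 Bm,
      BoxRes 1 (ξ k) (r k) ε 0 Bv 0 (a k) (b k) (m k) (M1 k) (ω k Bv) (κ k Bv)) →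
    (∀ k < n, ∀ Bv ∈ Icc 0 Bm, ∀ Bv' ∈ Icc 0 Bm, ∀ δ ∈ Icc (-1/2 : ℝ) (1/2),
      ∀ t ∈ Icc (a k) (b k), |ω k Bv δ t - ω k Bv' δ t| ≤ CB k * |Bv - Bv'|) →
    (∀ k < n, (b k / a k) * (M1 k / (m k * r k)) ≤ L ∧ (b k / a k) * (CB k / m k) ≤ C) →
    ExitHyp ε xm Bm L C

/-! ## P11: the window theorem in terms of `V` -/

/-- **P11** (may assume P6_window, P7_local, P8_exit, P9_planar, P9_zero; it is their combination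
for `x = LX V`, `y = LX Q`).  The first three conclusions are used for both windows, the last one
(with the exit hypothesis) for the first window only.  For `Bm`: by (O4)
`e^{-2 s1} ≤ z0 (y(s0)/ε)³ ≤ Bm`; exit times are unique. -/
def P11_window : Prop :=
  ∀ (V Q : ℝ → ℝ → ℝ) (A B s0 ε xm c1 c2 z0 Gm C4 : ℝ), Fam V Q → TCont V →
    0 < A → A < B → 0 < ε → 0 < xm → 0 < c1 → c1 < 1 → 1 < c2 →
    z0 = Real.exp (-2 * s0) → Gm = 4 * xm ^ 3 + 7 * z0 * xm ^ 6 → C4 = xm ^ 4 + z0 * xm ^ 7 →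
    c2 ^ 2 * Gm < c2 - 1 → c2 * Gm < 2 / 3 → C4 < 2 / 3 * ε → 3 * C4 + ε < xm →
    (∀ a ∈ Icc A B, ∀ t ∈ Icc 0 (Real.exp s0), 0 < V a t) →
    (∀ a ∈ Icc A B, LX V a s0 < xm ∧ LX Q a s0 < ε ∧ LX Q a s0 ≤ LX V a s0) →
    (∀ a ∈ Icc A B, 0 < LX Q a s0 → 3 * C4 < LX V a s0 - LX Q a s0 →
      (LX V a s0 - LX Q a s0 - 3 * C4) ^ 2 * LX Q a s0 < (xm - 3 * C4 - ε) ^ 2 * ε) →
    (∀ a ∈ Icc A B, ∀ b ∈ Icc A B, a < b →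
      0 < LX Q b s0 - LX Q a s0 ∧ c1 * (LX Q b s0 - LX Q a s0) < LX V b s0 - LX V a s0 ∧
        LX V b s0 - LX V a s0 < c2 * (LX Q b s0 - LX Q a s0)) →
    LX Q A s0 < 0 → 3 / 2 * C4 < LX Q B s0 →
    ∃ α ∈ Ioo A B, ZOn V (Ico A α) ∧ IncOn V (Ico A α) ∧ (∀ T, ¬ IsT V α T) ∧
      (∀ (κ Bm L C : ℝ), 0 ≤ κ → 0 ≤ L → 0 ≤ C →
        (∀ c ∈ Icc c1 c2, ∀ ξ ∈ Icc ε xm, ∀ z ∈ Icc (0:ℝ) z0,
          |ε * (1 - 2 * c / 3) - ξ / 3 + c * (ξ ^ 4 + z * ξ ^ 7)| < κ) →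
        (∀ a ∈ Icc A B, 0 < LX Q a s0 → z0 * (LX Q a s0) ^ 3 ≤ Bm * ε ^ 3) →
        ExitHyp ε xm Bm L C → L * κ + 2 * C * Bm < 1 →
        ZOn V (Ioc α B) ∧ DecOn V (Ioc α B))

/-! ## P12: exact polynomial arithmetic by Kronecker substitution

Bivariate integer polynomials `P(τ,δ)`, variable `0` is `τ`, variable `1` is `δ`. -/

/-- `ℓ¹` norm of the coefficients -/
noncomputable def norm1 (P : MvPolynomial (Fin 2) ℤ) : ℤ := ∑ m ∈ P.support, |P.coeff m|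

/-- **P12a**. -/
def P12_norm : Prop :=
  (∀ P Q : MvPolynomial (Fin 2) ℤ, norm1 (P + Q) ≤ norm1 P + norm1 Q) ∧
  (∀ P Q : MvPolynomial (Fin 2) ℤ, norm1 (P * Q) ≤ norm1 P * norm1 Q) ∧
  (∀ c : ℤ, norm1 (MvPolynomial.C c) = |c|) ∧
  (∀ i : Fin 2, norm1 (MvPolynomial.X i) = 1) ∧
  (∀ P : MvPolynomial (Fin 2) ℤ, norm1 (-P) = norm1 P) ∧
  (∀ P : MvPolynomial (Fin 2) ℤ, 0 ≤ norm1 P) ∧
  (∀ (P : MvPolynomial (Fin 2) ℤ) (z : Fin 2 → ℂ), (∀ i, ‖z i‖ ≤ 1) →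
    ‖MvPolynomial.aeval z P‖ ≤ (norm1 P : ℝ))

/-- SWAR computation of the `ℓ¹` norm of the balanced base-`2^b` digits of `X`
(`n` digits): with `H = 2^(b-1)`, `E = Σ_{k<n} 2^{bk}`, `Y = X + H E` (digits `c_k + H ≥ 0`),
`M` = top bits of the digits of `Y`, `Pos` = digits `max(c_k,0)`, `Neg = Pos - X`; the digit sum of
`Pos + Neg` is its residue mod `2^b - 1`. -/
def swar (b n : ℕ) (X : ℤ) : ℕ :=
  let H : ℕ := 2 ^ (b - 1)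
  let HE : ℕ := H * ((2 ^ (b * n) - 1) / (2 ^ b - 1))
  let Y : ℕ := (X + (HE : ℤ)).toNat
  let M : ℕ := (Nat.land Y HE) / H
  let Pos : ℕ := Nat.land Y (M * (H - 1))
  (2 * Pos + HE - Y) % (2 ^ b - 1)

/-- **P12b** (univariate SWAR lemma).  Digitwise: use `Nat.and_div_two_pow`,
`Nat.and_mod_two_pow` (or `Nat.testBit`) and induction on `n`; for a digit `y < 2^b`:
`y &&& H = if H ≤ y then H else 0`, and `y &&& (H-1) = y - H` if `H ≤ y < 2H`.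
Digit sum: `2^b ≡ 1 mod 2^b - 1`, and the sum is `< H ≤ 2^b - 1`. -/
def P12_swar : Prop :=
  ∀ (b n : ℕ) (c : ℕ → ℤ), 2 ≤ b → (∑ k ∈ Finset.range n, |c k|) < 2 ^ (b - 1) →
    (swar b n (∑ k ∈ Finset.range n, c k * (2 ^ b) ^ k) : ℤ) = ∑ k ∈ Finset.range n, |c k|

/-- **P12c** (may assume P12b).  Kronecker substitution: `δ = B = 2^b`, `τ = B^L`,
`c_{iL+j} = coeff (i,j)`. -/
def P12_kron : Prop :=
  ∀ (P : MvPolynomial (Fin 2) ℤ) (b L n : ℕ), 2 ≤ b → 0 < L →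
    P.degreeOf 1 < L → P.degreeOf 0 < n → norm1 P < 2 ^ (b - 1) →
    norm1 P = (swar b (n * L) (MvPolynomial.eval (![(2 ^ b) ^ L, 2 ^ b] : Fin 2 → ℤ) P) : ℤ)

end Pool.Agent.W2helper59.LN
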