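import Mathlib
import Pool.Agent.W2helper59.LN.Stm

/-!
# S03669: the validated integrator (checker definitions and soundness statements S1 … S5)

A *step* `[a,b]`, `t = c + h τ`, `τ ∈ [-1,1]`, carries an integer polynomial `u(τ,δ)` (rows = powers
of `τ`, columns = powers of `δ`), approximate solution `w(t,δ) = 2^{-M} u(τ,δ)`,
`r = (t w)' = w + (t/h) 2^{-M} u_τ`.  All checks are exact integer / rational arithmetic and are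
evaluated by the kernel.  The complex parameter `δ` runs over the closed unit disc.
-/

set_option autoImplicit false

namespace Pool.Agent.W2helper59.LN

open Set

/-! ## Data -/

/-- data of one step; `g, rho, mu0, mu1, nu0, nu1` are scaled by `2^100` -/
structure StepD where
  Y : ℕ
  M : ℕ
  mm : ℕ
  C : ℕ
  H : ℕ
  g : ℕ
  rho : ℕ
  mu0 : ℕ
  mu1 : ℕ
  nu0 : ℕ
  nu1 : ℕ

/-- header of a box: `n` rows, `k` columns, Kronecker base `2^b`, initial data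
`v(t0) = (A0 + A1 δ)/2^e`, `q(t0) = (Q0 + Q1 δ)/2^e`, coefficient `B = (B0 + B1 δ)/2^e` with
tolerance `bt/2^100` -/
structure Hdr where
  n : ℕ
  k : ℕ
  b : ℕ
  e : ℕ
  A0 : ℤ
  A1 : ℤ
  Q0 : ℤ
  Q1 : ℤ
  B0 : ℤ
  B1 : ℤ
  bt : ℕ

def dec1 : ℕ → ℕ → List ℤ
  | 0, _ => []
  | k + 1, Y => (((Y % 2 ^ 64 : ℕ) : ℤ) - 2 ^ 63) :: dec1 k (Y / 2 ^ 64)

/-- unpack the coefficients: `n` rows of length `k`, 64 bits each, offset `2^63` -/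
def dec2 (k : ℕ) : ℕ → ℕ → List (List ℤ)
  | 0, _ => []
  | n + 1, Y => dec1 k Y :: dec2 k n (Y / 2 ^ (64 * k))

/-! ## Evaluation -/

section ev
variable {A : Type*} [CommRing A]

/-- `Σ a_j d^j` -/
def ev1 (d : A) : List ℤ → A
  | [] => 0
  | a :: l => (a : A) + d * ev1 d l

/-- `Σ row_i(d) t^i` -/
def ev2 (t d : A) : List (List ℤ) → A
  | [] => 0
  | r :: l => ev1 d r + t * ev2 t d l

end ev

/-- integer versions for the kernel -/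
def ev1Z (d : ℤ) : List ℤ → ℤ
  | [] => 0
  | a :: l => a + d * ev1Z d l

def ev2Z (t d : ℤ) : List (List ℤ) → ℤ
  | [] => 0
  | r :: l => ev1Z d r + t * ev2Z t d l

/-! ## List operations -/

def smulL (c : ℤ) : List ℤ → List ℤ
  | [] => []
  | a :: l => (c * a) :: smulL c l

def addL : List ℤ → List ℤ → List ℤ
  | [], m => m
  | a :: l, [] => a :: l
  | a :: l, b :: m => (a + b) :: addL l m

def smulLL (c : ℤ) : List (List ℤ) → List (List ℤ)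
  | [] => []
  | r :: l => smulL c r :: smulLL c l

def addLL : List (List ℤ) → List (List ℤ) → List (List ℤ)
  | [], m => m
  | a :: l, [] => a :: l
  | a :: l, b :: m => addL a b :: addLL l m

def dTaux : ℤ → List (List ℤ) → List (List ℤ)
  | _, [] => []
  | i, r :: l => smulL i r :: dTaux (i + 1) l

/-- `∂_τ` -/
def dTau (L : List (List ℤ)) : List (List ℤ) := dTaux 1 L.tail

def dRowAux : ℤ → List ℤ → List ℤ
  | _, [] => []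
  | j, a :: l => (j * a) :: dRowAux (j + 1) l

/-- `∂_δ` of a polynomial in `δ` -/
def dRow (l : List ℤ) : List ℤ := dRowAux 1 l.tail

/-- `∂_δ` -/
def dDel : List (List ℤ) → List (List ℤ)
  | [] => []
  | r :: l => dRow r :: dDel l

/-- value at `τ = σ` (`σ = ±1`), a polynomial in `δ` -/
def rowEv (σ : ℤ) : List (List ℤ) → List ℤ
  | [] => []
  | r :: l => addL r (smulL σ (rowEv σ l))

/-- `ℓ¹` norms -/
def n1 : List ℤ → ℕ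
  | [] => 0
  | a :: l => a.natAbs + n1 l

def n2 : List (List ℤ) → ℕ
  | [] => 0
  | r :: l => n1 r + n2 l

/-- `ℓ¹` norm at `δ`-radius `1/2` -/
def nh1 : List ℤ → ℚ
  | [] => 0
  | a :: l => (a.natAbs : ℚ) + nh1 l / 2

def nh2 : List (List ℤ) → ℚ
  | [] => 0
  | r :: l => nh1 r + nh2 l

def hd1 (l : List ℤ) : ℤ := l.headD 0
def hd2 (L : List (List ℤ)) : ℤ := hd1 (L.headD [])

def qabs (x : ℚ) : ℚ := if 0 ≤ x then x else -x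

/-! ## Step quantities -/

def sc (x : ℕ) : ℚ := (x : ℚ) / 2 ^ 100

def StepD.L (hd : Hdr) (s : StepD) : List (List ℤ) := dec2 hd.k hd.n s.Y
/-- left end point, right end point, centre, half length -/
def StepD.a (s : StepD) : ℚ := ((s.C : ℚ) - s.H) / 2 ^ s.mm
def StepD.bb (s : StepD) : ℚ := ((s.C : ℚ) + s.H) / 2 ^ s.mm
def StepD.c (s : StepD) : ℚ := (s.C : ℚ) / 2 ^ s.mm
def StepD.h (s : StepD) : ℚ := (s.H : ℚ) / 2 ^ s.mm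

/-- `q`-polynomial scaled by `2^M H`: `H u + (C + H τ) u_τ` -/
def qL (s : StepD) (L : List (List ℤ)) : List (List ℤ) :=
  addLL (smulLL s.H L) (addLL (smulLL s.C (dTau L)) ([] :: smulLL s.H (dTau L)))

/-- the scaled defect `E(τ,δ)` in a commutative ring:
`E = 2^{e+2mm+6M} ((C+Hτ) u_ττ + 2H u_τ) + H² (C+Hτ) (2^{e+3M} u⁴ + (B0+B1 δ) u⁷)`, equal to
`H² 2^{mm+7M+e} · ((t w)'' + t (w⁴ + B w⁷))`. -/
def ePoly {A : Type*} [CommRing A] (hd : Hdr) (s : StepD) (L : List (List ℤ)) (τ δ : A) : A :=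
  2 ^ (hd.e + 2 * s.mm + 6 * s.M) *
      (((s.C : A) + (s.H : A) * τ) * ev2 τ δ (dTau (dTau L)) + 2 * (s.H : A) * ev2 τ δ (dTau L)) +
    (s.H : A) ^ 2 * ((s.C : A) + (s.H : A) * τ) *
      (2 ^ (hd.e + 3 * s.M) * ev2 τ δ L ^ 4 + ((hd.B0 : A) + (hd.B1 : A) * δ) * ev2 τ δ L ^ 7)

/-- the kernel version of `ePoly` over `ℤ` at `τ = 2^{b·7k}`, `δ = 2^b` -/
def eInt (hd : Hdr) (s : StepD) (L : List (List ℤ)) : ℤ :=
  let d : ℤ := 2 ^ hd.b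
  let t : ℤ := (2 ^ hd.b) ^ (7 * hd.k)
  let u := ev2Z t d L
  let u1 := ev2Z t d (dTau L)
  let u2 := ev2Z t d (dTau (dTau L))
  let ct : ℤ := (s.C : ℤ) + (s.H : ℤ) * t
  let v2 := u * u
  let v3 := v2 * u
  let v4 := v2 * v2
  2 ^ (hd.e + 2 * s.mm + 6 * s.M) * (ct * u2 + 2 * (s.H : ℤ) * u1) +
    (s.H : ℤ) ^ 2 * ct * (v4 * (2 ^ (hd.e + 3 * s.M) + (hd.B0 + hd.B1 * d) * v3))

/-- crude a-priori bound of the `ℓ¹` norm of `ePoly` -/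
def crude (hd : Hdr) (s : StepD) (U : ℕ) : ℕ :=
  2 ^ (hd.e + 2 * s.mm + 6 * s.M) * ((s.C + s.H) * (hd.n ^ 2 * U) + 2 * s.H * (hd.n * U)) +
    s.H ^ 2 * (s.C + s.H) *
      (2 ^ (hd.e + 3 * s.M) * U ^ 4 + (hd.B0.natAbs + hd.B1.natAbs) * U ^ 7)

/-- `B0/2^e` and the bound `Bm = B0/2^e + |B1|/2^e + bt` -/
def Hdr.b0 (hd : Hdr) : ℚ := (hd.B0 : ℚ) / 2 ^ hd.e
def Hdr.bm (hd : Hdr) : ℚ := (hd.B0 : ℚ) / 2 ^ hd.e + (hd.B1.natAbs : ℚ) / 2 ^ hd.e + sc hd.bt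

def v00 (s : StepD) (L : List (List ℤ)) : ℚ := (hd2 L : ℚ) / 2 ^ s.M
def v0 (s : StepD) (L : List (List ℤ)) : ℚ := ((hd2 L).natAbs : ℚ) / 2 ^ s.M
/-- variation `V = Σ_{(i,j)≠0} |c_ij| / 2^M` -/
def vV (s : StepD) (L : List (List ℤ)) : ℚ := ((n2 L : ℚ) - ((hd2 L).natAbs : ℚ)) / 2 ^ s.M

/-- Lipschitz defect `θ` for the centre `v00`, radius bound `R = v0+V+rho`, `γ = g²` -/
def theta (hd : Hdr) (s : StepD) (L : List (List ℤ)) : ℚ :=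
  qabs (4 * v00 s L ^ 3 + 7 * hd.b0 * v00 s L ^ 6 - sc s.g ^ 2) +
    4 * ((v0 s L + vV s L + sc s.rho) ^ 3 - v0 s L ^ 3) +
    7 * (hd.bm * (v0 s L + vV s L + sc s.rho) ^ 6 - hd.b0 * v0 s L ^ 6)

/-- bound of the defect -/
def epsS (hd : Hdr) (s : StepD) (L : List (List ℤ)) : ℚ :=
  (swar hd.b (7 * hd.n * (7 * hd.k)) (eInt hd s L) : ℚ) /
      (s.H ^ 2 * 2 ^ (s.mm + 7 * s.M + hd.e)) +
    sc hd.bt * s.bb * (v0 s L + vV s L) ^ 7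

/-- the step check -/
def stepOK (hd : Hdr) (s : StepD) : Bool :=
  let L := s.L hd
  let th := theta hd s L
  let x := th * s.h / sc s.g
  let R := v0 s L + vV s L + sc s.rho
  Nat.ble 1 s.H && Nat.ble s.H s.C && Nat.ble 1 s.g && Nat.ble 1 s.rho && Nat.ble 2 hd.b &&
  Nat.ble 1 hd.n && Nat.ble 1 hd.k &&
  Nat.blt (crude hd s (n2 L)) (2 ^ (hd.b - 1)) &&
  decide (0 ≤ hd.b0) &&
  decide (x < 1) &&
  decide (sc s.mu0 + 2 * s.h * epsS hd s L ≤ sc s.mu1 * (1 - x)) &&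
  (if s.C = s.H then decide (s.mu1 < s.rho) else decide (sc s.mu1 < sc s.g * s.a * sc s.rho)) &&
  decide (R ≤ 8) &&
  decide (-1 ≤ v00 s L - vV s L - sc s.rho) &&
  decide (sc s.nu0 + 2 * s.h * (s.bb * R ^ 7) ≤ sc s.nu1 * (1 - x))

/-- `Σ_j |p y_j - q x_j|` -/
def diffN (p q : ℤ) (x y : List ℤ) : ℕ := n1 (addL (smulL p y) (smulL (-q) x))

/-- transition check from `s` to `s'` -/
def jumpOK (hd : Hdr) (s s' : StepD) : Bool :=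
  let L := s.L hd
  let L' := s'.L hd
  let Jv : ℚ := (diffN (2 ^ s.M) (2 ^ s'.M) (rowEv 1 L) (rowEv (-1) L') : ℚ) /
    2 ^ (s.M + s'.M)
  let Jq : ℚ := (diffN (2 ^ s.M * s.H) (2 ^ s'.M * s'.H) (rowEv 1 (qL s L))
    (rowEv (-1) (qL s' L')) : ℚ) / (2 ^ (s.M + s'.M) * (s.H * s'.H))
  let J := sc s'.g * s'.a * Jv + Jq
  decide ((s.C + s.H) * 2 ^ s'.mm + s'.H * 2 ^ s.mm = s'.C * 2 ^ s.mm) &&
  Nat.blt s'.H s'.C &&
  decide (sc s.mu1 + J ≤ sc s'.mu0) && decide (sc s'.g / sc s.g * sc s.mu1 + J ≤ sc s'.mu0) &&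
  decide (s.nu1 ≤ s'.nu0) && decide (sc s'.g / sc s.g * sc s.nu1 ≤ sc s'.nu0)

/-- check of the first step -/
def startOK (hd : Hdr) (s : StepD) : Bool :=
  let L := s.L hd
  let Jv : ℚ := (diffN (2 ^ hd.e) (2 ^ s.M) [hd.A0, hd.A1] (rowEv (-1) L) : ℚ) /
    2 ^ (hd.e + s.M)
  let Jq : ℚ := (diffN (2 ^ hd.e) (2 ^ s.M * s.H) [hd.Q0, hd.Q1] (rowEv (-1) (qL s L)) : ℚ) /
    (2 ^ (hd.e + s.M) * s.H)
  decide (sc s.g * s.a * Jv + Jq ≤ sc s.mu0) &&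
  (if s.C = s.H then decide (hd.A0 = hd.Q0 ∧ hd.A1 = hd.Q1) else true)

def chainAux (hd : Hdr) (s : StepD) : List StepD → Bool
  | [] => stepOK hd s
  | s' :: l => stepOK hd s && jumpOK hd s s' && chainAux hd s' l

/-- the whole chain -/
def chainOK (hd : Hdr) : List StepD → Bool
  | [] => false
  | s :: l => startOK hd s && chainAux hd s l

/-- last step -/
def lastS (s : StepD) : List StepD → StepD
  | [] => s
  | s' :: l => lastS s' l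

/-! ## Analytic counterparts -/

/-- approximate solution of a step -/
noncomputable def wS (hd : Hdr) (s : StepD) (δ : ℂ) (t : ℝ) : ℂ :=
  ev2 (((t - (s.c : ℝ)) / (s.h : ℝ) : ℝ) : ℂ) δ (s.L hd) / 2 ^ s.M

noncomputable def rS (hd : Hdr) (s : StepD) (δ : ℂ) (t : ℝ) : ℂ :=
  wS hd s δ t +
    ((t / (s.h : ℝ) : ℝ) : ℂ) *
      (ev2 (((t - (s.c : ℝ)) / (s.h : ℝ) : ℝ) : ℂ) δ (dTau (s.L hd)) / 2 ^ s.M)

/-- `r' ` of a step -/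
noncomputable def rS' (hd : Hdr) (s : StepD) (δ : ℂ) (t : ℝ) : ℂ :=
  (((t / (s.h : ℝ) ^ 2 : ℝ) : ℂ) *
      ev2 (((t - (s.c : ℝ)) / (s.h : ℝ) : ℝ) : ℂ) δ (dTau (dTau (s.L hd))) +
    ((2 / (s.h : ℝ) : ℝ) : ℂ) *
      ev2 (((t - (s.c : ℝ)) / (s.h : ℝ) : ℝ) : ℂ) δ (dTau (s.L hd))) / 2 ^ s.M

/-- coefficient `B(δ) = Bv + (B1/2^e) δ` -/
noncomputable def bC (hd : Hdr) (Bv : ℝ) (δ : ℂ) : ℂ := (Bv : ℂ) + (hd.B1 : ℂ) / 2 ^ hd.e * δ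

/-- the cut-off nonlinearity used in existence (`sq 8` is the identity for `‖z‖ ≤ 8`) -/
noncomputable def fCut (hd : Hdr) (Bv : ℝ) (δ z : ℂ) : ℂ :=
  (sq 8 z) ^ 4 + bC hd Bv δ * (sq 8 z) ^ 7

/-- admissible value of the constant coefficient -/
def BAdm (hd : Hdr) (Bv : ℝ) : Prop := |Bv - (hd.b0 : ℝ)| ≤ (sc hd.bt : ℝ)

/-- the weighted error bound `(g t‖v-w‖)² + ‖q-r‖² ≤ μ²` -/
def NB (g μ t : ℝ) (v w q r : ℂ) : Prop := (g * (t * ‖v - w‖)) ^ 2 + ‖q - r‖ ^ 2 ≤ μ ^ 2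

/-! ## Soundness statements -/

/-- **S1** (defect bound; uses P12: `Pool.Agent.W2helper71.LN.p12_norm`, `p12_kron`).
`ePoly` over `MvPolynomial (Fin 2) ℤ` at `τ = X 0`, `δ = X 1` has `norm1 ≤ crude` (rows of length
`≤ k`, `n` rows; `norm1 (ev2 L) ≤ n2 L`, `norm1 (ev2 (dTau L)) ≤ n * n2 L` …), `degreeOf 1 < 7k`,
`degreeOf 0 < 7n` (`u⁷` times a factor of degree one), its evaluation at `(2^b)^(7k), 2^b` is
`eInt`; then `p12_kron` and the bound `‖aeval z P‖ ≤ norm1 P`. -/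
def S1_defect : Prop :=
  ∀ (hd : Hdr) (s : StepD) (τ δ : ℂ), ‖τ‖ ≤ 1 → ‖δ‖ ≤ 1 → 2 ≤ hd.b → 1 ≤ hd.n → 1 ≤ hd.k →
    crude hd s (n2 (s.L hd)) < 2 ^ (hd.b - 1) →
    ‖ePoly hd s (s.L hd) τ δ‖ ≤ (swar hd.b (7 * hd.n * (7 * hd.k)) (eInt hd s (s.L hd)) : ℝ)

/-- **S2** (calculus of the approximate solution): `(w,r)` is a `SolOn` for the `z`-independent
`G t z = - r'(t)/t`. -/
def S2_approx : Prop :=
  ∀ (hd : Hdr) (s : StepD) (δ : ℂ), 1 ≤ s.H → s.H ≤ s.C →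
    SolOn (fun t _ => -(rS' hd s δ t) / (t : ℂ)) (s.a : ℝ) (s.bb : ℝ) (wS hd s δ) (rS hd s δ)

/-- **S3** (algebra in the tube).  `z⁴-w⁴ = (z-w) Σ z^i w^j`, every monomial of degree `d`
satisfies `‖z^i w^j - v0^d‖ ≤ (|v0|+ρ)^d - |v0|^d`; and
`‖B z^i w^j - B0 v0^6‖ ≤ (Bm-B0) R^6 + B0 (R^6-|v0|^6)`. -/
def S3_tube : Prop :=
  ∀ (v0 ρ B0 Bm γ : ℝ) (B z w : ℂ), 0 ≤ ρ → 0 ≤ B0 → ‖B - (B0 : ℂ)‖ ≤ Bm - B0 →
    ‖z - (v0 : ℂ)‖ ≤ ρ → ‖w - (v0 : ℂ)‖ ≤ ρ →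
    ‖(z ^ 4 + B * z ^ 7) - (w ^ 4 + B * w ^ 7) - (γ : ℂ) * (z - w)‖ ≤
      (|4 * v0 ^ 3 + 7 * B0 * v0 ^ 6 - γ| + 4 * ((|v0| + ρ) ^ 3 - |v0| ^ 3) +
        7 * (Bm * (|v0| + ρ) ^ 6 - B0 * |v0| ^ 6)) * ‖z - w‖

/-- **S4** (one step; may assume S1, S2, S3 and P4_boot, P4_step).
Facts: `‖w - v00‖ ≤ V` on `[a,b]` for `‖δ‖ ≤ 1`; so in the tube `‖z - w‖ ≤ rho` one has
`‖z - v00‖ ≤ V + rho`, `‖z‖ ≤ R ≤ 8` and `sq 8 z = z`; `t(F z - G - g²(z-w)) =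
t (f z - f w - g² (z-w)) + (t f w + r')`, and `t f(w) + r' = ePoly/(H² 2^{mm+7M+e})` up to the
tolerance term `t |Bv - B0| |w|^7 ≤ bt · b · (v0+V)^7`.  Apply P4_boot with `θ = theta`,
`ε = epsS`, using `exp x ≤ 1/(1-x)`, `x = θ h/g = θ (b-a)/(2g)`.
Third part (`ν`): two exact solutions for `Bv`, `Bv'` both in the tube: P4_step with
`ε = b R^7 |Bv - Bv'|`. -/
def S4_step : Prop :=
  ∀ (hd : Hdr) (s : StepD) (Bv : ℝ), BAdm hd Bv → stepOK hd s = true →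
    (∀ (δ : ℂ) (v q : ℝ → ℂ), ‖δ‖ ≤ 1 →
      SolOn (fun _ z => fCut hd Bv δ z) (s.a : ℝ) (s.bb : ℝ) v q →
      NB (sc s.g : ℝ) (sc s.mu0 : ℝ) (s.a : ℝ) (v (s.a : ℝ)) (wS hd s δ (s.a : ℝ))
        (q (s.a : ℝ)) (rS hd s δ (s.a : ℝ)) →
      ∀ t ∈ Icc (s.a : ℝ) (s.bb : ℝ),
        NB (sc s.g : ℝ) (sc s.mu1 : ℝ) t (v t) (wS hd s δ t) (q t) (rS hd s δ t) ∧
        ‖v t - wS hd s δ t‖ ≤ (sc s.rho : ℝ) ∧ ‖v t‖ ≤ 8 ∧ -1 ≤ (v t).re) ∧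
    (∀ (Bv' : ℝ) (δ : ℂ) (v q v' q' : ℝ → ℂ) (D : ℝ), BAdm hd Bv' → ‖δ‖ ≤ 1 → |Bv - Bv'| ≤ D →
      SolOn (fun _ z => fCut hd Bv δ z) (s.a : ℝ) (s.bb : ℝ) v q →
      SolOn (fun _ z => fCut hd Bv' δ z) (s.a : ℝ) (s.bb : ℝ) v' q' →
      (∀ t ∈ Icc (s.a : ℝ) (s.bb : ℝ), ‖v t - wS hd s δ t‖ ≤ (sc s.rho : ℝ) ∧
        ‖v' t - wS hd s δ t‖ ≤ (sc s.rho : ℝ)) →
      NB (sc s.g : ℝ) ((sc s.nu0 : ℝ) * D) (s.a : ℝ) (v (s.a : ℝ)) (v' (s.a : ℝ))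
        (q (s.a : ℝ)) (q' (s.a : ℝ)) →
      ∀ t ∈ Icc (s.a : ℝ) (s.bb : ℝ),
        NB (sc s.g : ℝ) ((sc s.nu1 : ℝ) * D) t (v t) (v' t) (q t) (q' t))

/-- **S4b** (transitions): pure triangle inequality.
`wS s δ` at the right end of `s` and `wS s' δ` at the left end of `s'` are `ev1 δ (rowEv 1 L)/2^M`,
`ev1 δ (rowEv (-1) L')/2^M'`, and `rS` there is `ev1 δ (rowEv (±1) (qL s L))/(2^M H)`. -/
def S4_jump : Prop :=
  (∀ (hd : Hdr) (s s' : StepD) (δ v q : ℂ), ‖δ‖ ≤ 1 → stepOK hd s = true → stepOK hd s' = true →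
    jumpOK hd s s' = true →
    (s.bb = s'.a) ∧
    (NB (sc s.g : ℝ) (sc s.mu1 : ℝ) (s.bb : ℝ) v (wS hd s δ (s.bb : ℝ)) q (rS hd s δ (s.bb : ℝ)) →
      NB (sc s'.g : ℝ) (sc s'.mu0 : ℝ) (s'.a : ℝ) v (wS hd s' δ (s'.a : ℝ)) q
        (rS hd s' δ (s'.a : ℝ))) ∧
    (∀ (v' q' : ℂ) (D : ℝ), 0 ≤ D →
      NB (sc s.g : ℝ) ((sc s.nu1 : ℝ) * D) (s.bb : ℝ) v v' q q' →
      NB (sc s'.g : ℝ) ((sc s'.nu0 : ℝ) * D) (s'.a : ℝ) v v' q q')) ∧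
  (∀ (hd : Hdr) (s : StepD) (δ : ℂ), ‖δ‖ ≤ 1 → stepOK hd s = true → startOK hd s = true →
    NB (sc s.g : ℝ) (sc s.mu0 : ℝ) (s.a : ℝ) (((hd.A0 : ℂ) + hd.A1 * δ) / 2 ^ hd.e)
      (wS hd s δ (s.a : ℝ)) (((hd.Q0 : ℂ) + hd.Q1 * δ) / 2 ^ hd.e) (rS hd s δ (s.a : ℝ)))

/-- **S5** (chain; may assume S4_step, S4_jump, P5_exists, P5_hol, P5_real, P1_stab, P1_zero).
Induction over the list of steps.  `ls` is the last step, the family lives on `[a_first, b_last]`.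
For each real `Bv` admissible there is a family `w, χ` (`δ` in the closed disc; choose solutions of
the cut-off problem by P5_exists; they stay in the tubes, so they solve the polynomial problem). -/
def S5_chain : Prop :=
  ∀ (hd : Hdr) (s : StepD) (l : List StepD), chainOK hd (s :: l) = true →
    ∃ w χ : ℝ → ℂ → ℝ → ℂ,
      (∀ Bv, BAdm hd Bv → ∀ δ : ℂ, ‖δ‖ ≤ 1 →
        SolOn (fun _ z => z ^ 4 + bC hd Bv δ * z ^ 7) (s.a : ℝ) ((lastS s l).bb : ℝ)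
          (w Bv δ) (χ Bv δ) ∧
        w Bv δ (s.a : ℝ) = ((hd.A0 : ℂ) + hd.A1 * δ) / 2 ^ hd.e ∧
        χ Bv δ (s.a : ℝ) = ((hd.Q0 : ℂ) + hd.Q1 * δ) / 2 ^ hd.e ∧
        (∀ t ∈ Icc (s.a : ℝ) ((lastS s l).bb : ℝ), ‖w Bv δ t‖ ≤ 8 ∧ -1 ≤ (w Bv δ t).re) ∧
        (∀ t ∈ Icc ((lastS s l).a : ℝ) ((lastS s l).bb : ℝ),
          NB (sc (lastS s l).g : ℝ) (sc (lastS s l).mu1 : ℝ) t (w Bv δ t)
            (wS hd (lastS s l) δ t) (χ Bv δ t) (rS hd (lastS s l) δ t))) ∧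
      (∀ Bv, BAdm hd Bv → ∀ t ∈ Icc (s.a : ℝ) ((lastS s l).bb : ℝ),
        DifferentiableOn ℂ (fun δ => w Bv δ t) (Metric.ball 0 1) ∧
        DifferentiableOn ℂ (fun δ => χ Bv δ t) (Metric.ball 0 1)) ∧
      (∀ Bv, BAdm hd Bv → ∀ δ : ℝ, |δ| ≤ 1 → ∀ t ∈ Icc (s.a : ℝ) ((lastS s l).bb : ℝ),
        (w Bv δ t).im = 0 ∧ (χ Bv δ t).im = 0) ∧
      (∀ Bv Bv', BAdm hd Bv → BAdm hd Bv' → ∀ δ : ℂ, ‖δ‖ ≤ 1 →
        ∀ t ∈ Icc ((lastS s l).a : ℝ) ((lastS s l).bb : ℝ),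
          NB (sc (lastS s l).g : ℝ) ((sc (lastS s l).nu1 : ℝ) * |Bv - Bv'|) t (w Bv δ t)
            (w Bv' δ t) (χ Bv δ t) (χ Bv' δ t)) ∧
      (s.a : ℝ) < ((lastS s l).bb : ℝ) ∧ (s.a : ℝ) ≤ ((lastS s l).a : ℝ)

/-! ## Final checks -/

/-- error of `v` and of `q` in the last step -/
def evF (s : StepD) : ℚ := sc s.mu1 / (sc s.g * s.a)
def eqF (s : StepD) : ℚ := sc s.mu1

/-- value at the centre minus the rest (lower bound of the polynomial on `|τ|≤1, |δ|≤1/2`) -/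
def lo2 (L : List (List ℤ)) : ℚ := (hd2 L : ℚ) - (nh2 L - ((hd2 L).natAbs : ℚ))
def lo1 (l : List ℤ) : ℚ := (hd1 l : ℚ) - (nh1 l - ((hd1 l).natAbs : ℚ))

/-- zero inside the last step: `q ≤ -m`, `v(a) > 0`, `v(b) < 0` -/
def finZ (hd : Hdr) (s : StepD) (m : ℚ) : Bool :=
  let L := s.L hd
  decide (0 < m) &&
  decide ((m + eqF s) * (2 ^ s.M * s.H) ≤ lo2 (smulLL (-1) (qL s L))) &&
  decide (evF s * 2 ^ s.M < lo1 (rowEv (-1) L)) &&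
  decide (evF s * 2 ^ s.M < lo1 (smulL (-1) (rowEv 1 L))) &&
  Nat.blt s.H s.C

/-- reality of the positivity argument: `0 ≤ B ≤ 1` for real `|δ| ≤ 1/2` and all admissible `Bv`,
initial value positive -/
def finB (hd : Hdr) (s : StepD) : Bool :=
  decide (0 ≤ hd.b0 - (hd.B1.natAbs : ℚ) / 2 ^ hd.e / 2 - sc hd.bt) &&
  decide (hd.b0 + (hd.B1.natAbs : ℚ) / 2 ^ hd.e / 2 + sc hd.bt ≤ 1) &&
  decide (0 < 2 * hd.A0 - (hd.A1.natAbs : ℤ)) && decide (0 ≤ s.a)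

/-- Lipschitz constant in `δ` on the last step -/
def finLip (hd : Hdr) (s : StepD) (M1 : ℚ) : Bool :=
  decide (nh2 (dDel (s.L hd)) / 2 ^ s.M + 5 / 2 * evF s ≤ M1)

/-- sign of `∂_δ v` on the last step (`σ = 1`: increasing, `σ = -1`: decreasing) -/
def finSign (hd : Hdr) (s : StepD) (σ : ℤ) : Bool :=
  decide (5 / 2 * evF s * 2 ^ s.M < lo2 (smulLL σ (dDel (s.L hd))))

/-- convexity in `δ` on the last step -/
def finConv (hd : Hdr) (s : StepD) : Bool :=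
  decide (25 / 2 * evF s * 2 ^ s.M < lo2 (dDel (dDel (s.L hd))))

/-- window data at the right end of the last step: cone constants `c1 = p1/d`, `c2 = p2/d` and
bounds of `v`, `q`, and an upper bound `khi` of `v - q` -/
def finW (hd : Hdr) (s : StepD) (p1 p2 d : ℕ) (vlo vhi qlo qhi khi : ℚ) : Bool :=
  let L := s.L hd
  let xv := rowEv 1 L
  let xq := rowEv 1 (qL s L)
  let dv := dRow xv
  let dq := dRow xq
  let S : ℚ := 2 ^ s.M * s.H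
  Nat.blt s.H s.C && Nat.ble 1 d &&
  decide (5 / 2 * ((d : ℚ) * evF s + p1 * eqF s) * S <
    lo1 (addL (smulL (d * s.H) dv) (smulL (-p1) dq))) &&
  decide (5 / 2 * ((d : ℚ) * evF s + p2 * eqF s) * S <
    lo1 (addL (smulL (-(d * s.H)) dv) (smulL p2 dq))) &&
  decide (5 / 2 * eqF s * S < lo1 dq) &&
  decide ((vlo + evF s) * 2 ^ s.M ≤ lo1 xv) &&
  decide ((-vhi + evF s) * 2 ^ s.M ≤ lo1 (smulL (-1) xv)) &&
  decide ((qlo + eqF s) * S ≤ lo1 xq) &&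
  decide ((-qhi + eqF s) * S ≤ lo1 (smulL (-1) xq)) && decide (0 < vlo) &&
  decide ((-khi + evF s + eqF s) * S ≤ lo1 (addL (smulL (-s.H) xv) xq))

/-- parameters of the box as reals -/
noncomputable def Hdr.a0 (hd : Hdr) : ℝ := (hd.A0 : ℝ) / 2 ^ hd.e
noncomputable def Hdr.a1 (hd : Hdr) : ℝ := (hd.A1 : ℝ) / 2 ^ hd.e
noncomputable def Hdr.q0 (hd : Hdr) : ℝ := (hd.Q0 : ℝ) / 2 ^ hd.e
noncomputable def Hdr.q1 (hd : Hdr) : ℝ := (hd.Q1 : ℝ) / 2 ^ hd.e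
noncomputable def Hdr.b1 (hd : Hdr) : ℝ := (hd.B1 : ℝ) / 2 ^ hd.e

/-- **S6** (may assume S5_chain).  `ω Bv δ t = (w Bv δ t).re`, `κ = (χ …).re` for real `δ`.
Positivity on `[t0,a]`: `p = tω` has `p'' = -t ω⁴ (1 + B ω³) ≤ 0` since `ω ≥ -1`, `0 ≤ B ≤ 1`, so
`p` is concave; `p > 0` at the right end and (`t0>0`: `p(t0)>0`; `t0 = 0`: `p(0)=0`, `p'(0)=ω(0)>0`),
so `p > 0` between.  On the last step: `κ ≤ -m` etc. from `lo2`; derivative in `δ`: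
`e(δ) = w(δ) - wS(δ)` is holomorphic in the disc and `‖e‖ ≤ evF`, so `‖e'‖ ≤ (5/2) evF`,
`‖e''‖ ≤ (25/2) evF` for `|δ| ≤ 1/2` (Cauchy estimates on circles of radius `2/5`, contained in the
open unit disc). -/
def S6_final : Prop :=
  ∀ (hd : Hdr) (s : StepD) (l : List StepD), chainOK hd (s :: l) = true → finB hd s = true →
    ∃ ω κ : ℝ → ℝ → ℝ → ℝ,
      (∀ (m M1 : ℚ), l ≠ [] → finZ hd (lastS s l) m = true →
        finLip hd (lastS s l) M1 = true → ∀ Bv, BAdm hd Bv →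
          BoxRes (s.a : ℝ) hd.a0 hd.a1 hd.q0 hd.q1 Bv hd.b1 ((lastS s l).a : ℝ)
            ((lastS s l).bb : ℝ) m M1 (ω Bv) (κ Bv) ∧
          (finSign hd (lastS s l) (-1) = true →
            ∀ t ∈ Icc ((lastS s l).a : ℝ) ((lastS s l).bb : ℝ),
              StrictAntiOn (fun δ => ω Bv δ t) (Icc (-1/2) (1/2))) ∧
          (finSign hd (lastS s l) 1 = true →
            ∀ t ∈ Icc ((lastS s l).a : ℝ) ((lastS s l).bb : ℝ),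
              StrictMonoOn (fun δ => ω Bv δ t) (Icc (-1/2) (1/2))) ∧
          (finConv hd (lastS s l) = true →
            ∀ t ∈ Icc ((lastS s l).a : ℝ) ((lastS s l).bb : ℝ),
              StrictConvexOn ℝ (Icc (-1/2) (1/2)) (fun δ => ω Bv δ t)) ∧
          (∀ Bv', BAdm hd Bv' → ∀ δ ∈ Icc (-1/2 : ℝ) (1/2),
            ∀ t ∈ Icc ((lastS s l).a : ℝ) ((lastS s l).bb : ℝ),
              |ω Bv δ t - ω Bv' δ t| ≤
                ((sc (lastS s l).nu1 / (sc (lastS s l).g * (lastS s l).a) : ℚ) : ℝ) *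
                  |Bv - Bv'|)) ∧
      (∀ (p1 p2 d : ℕ) (vlo vhi qlo qhi khi : ℚ),
        finW hd (lastS s l) p1 p2 d vlo vhi qlo qhi khi = true →
        ∀ Bv, BAdm hd Bv → ∀ δ ∈ Icc (-1/2 : ℝ) (1/2),
          SolOn (fun _ v => v ^ 4 + (Bv + hd.b1 * δ) * v ^ 7) (s.a : ℝ) ((lastS s l).bb : ℝ)
            (ω Bv δ) (κ Bv δ) ∧
          ω Bv δ (s.a : ℝ) = hd.a0 + hd.a1 * δ ∧
          (∀ t ∈ Icc (s.a : ℝ) ((lastS s l).bb : ℝ), 0 < ω Bv δ t) ∧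
          (vlo : ℝ) ≤ ω Bv δ ((lastS s l).bb : ℝ) ∧ ω Bv δ ((lastS s l).bb : ℝ) ≤ (vhi : ℝ) ∧
          (qlo : ℝ) ≤ κ Bv δ ((lastS s l).bb : ℝ) ∧ κ Bv δ ((lastS s l).bb : ℝ) ≤ (qhi : ℝ) ∧
          ω Bv δ ((lastS s l).bb : ℝ) - κ Bv δ ((lastS s l).bb : ℝ) ≤ (khi : ℝ) ∧
          ∀ δ' ∈ Icc (-1/2 : ℝ) (1/2), δ < δ' →
            0 < κ Bv δ' ((lastS s l).bb : ℝ) - κ Bv δ ((lastS s l).bb : ℝ) ∧
            (p1 : ℝ) / d * (κ Bv δ' ((lastS s l).bb : ℝ) - κ Bv δ ((lastS s l).bb : ℝ)) <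
              ω Bv δ' ((lastS s l).bb : ℝ) - ω Bv δ ((lastS s l).bb : ℝ) ∧
            ω Bv δ' ((lastS s l).bb : ℝ) - ω Bv δ ((lastS s l).bb : ℝ) <
              (p2 : ℝ) / d * (κ Bv δ' ((lastS s l).bb : ℝ) - κ Bv δ ((lastS s l).bb : ℝ)))

end Pool.Agent.W2helper59.LN
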