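import Pool.Agent.W2helper59.LN.Asm0
import Pool.Agent.W2helper59.LN.D_W1
import Pool.Agent.W2helper59.LN.D_W2
import Pool.Agent.W2helper59.LN.D_W3
import Pool.Agent.W2helper59.LN.D_W4
import Pool.Agent.W2helper59.LN.D_W5
import Pool.Agent.W2helper59.LN.D_W6
import Pool.Agent.W2helper59.LN.D_W7
import Pool.Agent.W2helper59.LN.D_W8

/-!
# S03669: the windows AW1, AW2
-/

set_option autoImplicit false

namespace Pool.Agent.W2helper59.LN

open Set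

/-- strict pair cone at time `T0` -/
def CN (V Q : ℝ → ℝ → ℝ) (T0 c1 c2 : ℝ) (I : Set ℝ) : Prop :=
  ∀ a ∈ I, ∀ b ∈ I, a < b → 0 < Q b T0 - Q a T0 ∧ c1 * (Q b T0 - Q a T0) < V b T0 - V a T0 ∧
    V b T0 - V a T0 < c2 * (Q b T0 - Q a T0)

lemma cn_glue {V Q : ℝ → ℝ → ℝ} {T0 c1 c2 x y z : ℝ} (h1 : CN V Q T0 c1 c2 (Icc x y))
    (h2 : CN V Q T0 c1 c2 (Icc y z)) (hxy : x ≤ y) (hyz : y ≤ z) :
    CN V Q T0 c1 c2 (Icc x z) := by
  intro a ha b hb hab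
  rcases le_total b y with h | h
  · exact h1 a ⟨ha.1, by linarith⟩ b ⟨hb.1, h⟩ hab
  · rcases le_total y a with h' | h'
    · exact h2 a ⟨h', ha.2⟩ b ⟨h, hb.2⟩ hab
    · rcases h'.lt_or_eq with h'' | h''
      · rcases h.lt_or_eq with h3 | h3
        · obtain ⟨u1, u2, u3⟩ := h1 a ⟨ha.1, h'⟩ y ⟨hxy, le_rfl⟩ h''
          obtain ⟨w1, w2, w3⟩ := h2 y ⟨le_rfl, hyz⟩ b ⟨h, hb.2⟩ h3
          refine ⟨by linarith, ?_, ?_⟩
          · have : c1 * (Q b T0 - Q a T0) = c1 * (Q b T0 - Q y T0) + c1 * (Q y T0 - Q a T0) := by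
              ring
            linarith
          · have : c2 * (Q b T0 - Q a T0) = c2 * (Q b T0 - Q y T0) + c2 * (Q y T0 - Q a T0) := by
              ring
            linarith
        · subst h3
          exact h1 a ⟨ha.1, h'⟩ y ⟨hxy, le_rfl⟩ h''
      · subst h''
        exact h2 a ⟨le_rfl, by linarith⟩ b ⟨h, hb.2⟩ hab

/-- bounds in a window box -/
def WB (V Q : ℝ → ℝ → ℝ) (T0 vlo vhi qlo qhi khi : ℝ) (I : Set ℝ) : Prop :=
  ∀ a ∈ I, (∀ t ∈ Icc 0 T0, 0 < V a t) ∧ vlo ≤ V a T0 ∧ V a T0 ≤ vhi ∧ qlo ≤ Q a T0 ∧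
    Q a T0 ≤ qhi ∧ V a T0 - Q a T0 ≤ khi

lemma winBox (h6 : S6_final) {V Q : ℝ → ℝ → ℝ} (hF : Fam V Q)
    (hd : Hdr) (s : StepD) (l : List StepD) (hc : chainOK hd (s :: l) = true)
    (hb : finB hd s = true) (p1 p2 d : ℕ) (vlo vhi qlo qhi khi : ℚ)
    (hw : finW hd (lastS s l) p1 p2 d vlo vhi qlo qhi khi = true) (x y T0 : ℝ)
    (h0 : 0 < x) (hxy : x < y) (hT0 : 0 < T0)
    (ha : s.C = s.H)
    (e1 : (hd.A0 : ℝ) / 2 ^ hd.e = (x + y) / 2) (e2 : (hd.A1 : ℝ) / 2 ^ hd.e = y - x)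
    (e5 : hd.B0 = 2 ^ hd.e) (e6 : hd.B1 = 0) (e7 : ((lastS s l).bb : ℝ) = T0) (c1 c2 : ℝ)
    (hc1 : (p1 : ℝ) / d = c1) (hc2 : (p2 : ℝ) / d = c2) :
    WB V Q T0 vlo vhi qlo qhi khi (Icc x y) ∧ CN V Q T0 c1 c2 (Icc x y) := by
  subst hc1 hc2
  obtain ⟨ω, κ, -, h1⟩ := h6 hd s l hc hb
  have hb0 : (hd.b0 : ℝ) = 1 := by
    have : hd.b0 = 1 := by
      unfold Hdr.b0
      rw [e5]
      push_cast
      exact div_self (by positivity)
    rw [this]; norm_num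
  have hadm : BAdm hd 1 := by
    unfold BAdm
    rw [hb0]
    simp only [sub_self, abs_zero]
    have : (0:ℚ) ≤ sc hd.bt := by unfold sc; positivity
    exact_mod_cast this
  have h2 := h1 p1 p2 d vlo vhi qlo qhi khi hw 1 hadm
  have ea : (s.a : ℝ) = 0 := by
    have : s.a = 0 := by
      unfold StepD.a
      rw [ha]; simp
    rw [this]; norm_num
  have f1 : hd.a0 = (x + y) / 2 := e1
  have f2 : hd.a1 = y - x := e2
  have f6 : hd.b1 = 0 := by unfold Hdr.b1; rw [e6]; simp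
  rw [ea, f1, f2, f6, e7] at h2
  have hr : 0 < y - x := by linarith
  -- the box solution is the family
  have key : ∀ a ∈ Icc x y, (a - (x + y) / 2) / (y - x) ∈ Icc (-1/2 : ℝ) (1/2) ∧
      ∀ t ∈ Icc 0 T0, ω 1 ((a - (x + y) / 2) / (y - x)) t = V a t ∧
        κ 1 ((a - (x + y) / 2) / (y - x)) t = Q a t := by
    intro a haI
    have hδ : (a - (x + y) / 2) / (y - x) ∈ Icc (-1/2 : ℝ) (1/2) := by
      constructor
      · rw [le_div_iff₀ hr]; linarith [haI.1]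
      · rw [div_le_iff₀ hr]; linarith [haI.2]
    obtain ⟨hs, hi, hp, -⟩ := h2 _ hδ
    refine ⟨hδ, ?_⟩
    refine hF.uniq a (by linarith [haI.1]) T0 hT0 _ _ ⟨hs.cv, hs.cq, hs.dv, ?_⟩ ?_
    · intro t ht
      have h3 := hs.dq t ht
      have h4 : fp (ω 1 ((a - (x + y) / 2) / (y - x)) t) =
          ω 1 ((a - (x + y) / 2) / (y - x)) t ^ 4 +
            (1 + 0 * ((a - (x + y) / 2) / (y - x))) * ω 1 ((a - (x + y) / 2) / (y - x)) t ^ 7 := by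
        unfold fp
        rw [max_eq_left (hp t ⟨ht.1.le, ht.2.le⟩).le]
        ring
      rw [h4]
      exact h3
    · rw [hi]
      field_simp
      ring
  have hT : T0 ∈ Icc 0 T0 := ⟨hT0.le, le_rfl⟩
  constructor
  · intro a haI
    obtain ⟨hδ, hk⟩ := key a haI
    obtain ⟨-, -, hp, g1, g2, g3, g4, g5, -⟩ := h2 _ hδ
    rw [(hk T0 hT).1] at g1 g2 g5
    rw [(hk T0 hT).2] at g3 g4 g5
    exact ⟨fun t ht => by rw [← (hk t ht).1]; exact hp t ht, g1, g2, g3, g4, g5⟩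
  · intro a haI b hbI hab
    obtain ⟨hδ, hk⟩ := key a haI
    obtain ⟨hδ', hk'⟩ := key b hbI
    obtain ⟨-, -, -, -, -, -, -, -, h3⟩ := h2 _ hδ
    have := h3 _ hδ' (by
      rw [div_lt_div_iff_of_pos_right hr]; linarith)
    rw [(hk T0 hT).1, (hk T0 hT).2, (hk' T0 hT).1, (hk' T0 hT).2] at this
    exact this

lemma exp_log_third (T X : ℝ) (hX : 0 < X) (h : T ^ 2 = X ^ 3) :
    Real.exp (2 / 3 * Real.log T) = X := by
  have h1 : Real.log (T ^ 2) = Real.log (X ^ 3) := by rw [h]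
  rw [Real.log_pow, Real.log_pow] at h1
  push_cast at h1
  have : 2 / 3 * Real.log T = Real.log X := by linarith
  rw [this, Real.exp_log hX]

lemma lx_eq (V : ℝ → ℝ → ℝ) (a T X : ℝ) (hT : 0 < T) (hX : 0 < X) (h : T ^ 2 = X ^ 3) :
    LX V a (Real.log T) = X * V a T := by
  unfold LX
  rw [exp_log_third T X hX h, Real.exp_log hT]

lemma exp_m2 (T : ℝ) (hT : 0 < T) : Real.exp (-2 * Real.log T) = 1 / T ^ 2 := by
  have h : -2 * Real.log T = -(Real.log T + Real.log T) := by ring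
  rw [h, Real.exp_neg, Real.exp_add, Real.exp_log hT, one_div, pow_two]

section boxes
variable (h6 : S6_final) {V Q : ℝ → ℝ → ℝ} (hF : Fam V Q)
include h6 hF

lemma boxW1 : WB V Q 64 D_W1.vlo D_W1.vhi D_W1.qlo D_W1.qhi D_W1.khi (Icc (353/256) (378/256)) ∧
    CN V Q 64 (9/10) (27/20) (Icc (353/256) (378/256)) :=
  winBox h6 hF D_W1.hd D_W1.s0 D_W1.ss D_W1.ok D_W1.fb 90 135 100 _ _ _ _ _ D_W1.fw
    (353/256) (378/256) 64 (by norm_num) (by norm_num) (by norm_num) rfl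
    (by norm_num [D_W1.hd]) (by norm_num [D_W1.hd]) (by norm_num [D_W1.hd]) rfl
    (by
      have : (lastS D_W1.s0 D_W1.ss).bb = 64 := by decide +kernel
      rw [this]; norm_num) (9/10) (27/20) (by norm_num) (by norm_num)

lemma boxW2 : WB V Q 64 D_W2.vlo D_W2.vhi D_W2.qlo D_W2.qhi D_W2.khi (Icc (378/256) (392/256)) ∧
    CN V Q 64 (9/10) (27/20) (Icc (378/256) (392/256)) :=
  winBox h6 hF D_W2.hd D_W2.s0 D_W2.ss D_W2.ok D_W2.fb 90 135 100 _ _ _ _ _ D_W2.fw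
    (378/256) (392/256) 64 (by norm_num) (by norm_num) (by norm_num) rfl
    (by norm_num [D_W2.hd]) (by norm_num [D_W2.hd]) (by norm_num [D_W2.hd]) rfl
    (by
      have : (lastS D_W2.s0 D_W2.ss).bb = 64 := by decide +kernel
      rw [this]; norm_num) (9/10) (27/20) (by norm_num) (by norm_num)

lemma boxW3 : WB V Q 64 D_W3.vlo D_W3.vhi D_W3.qlo D_W3.qhi D_W3.khi (Icc (392/256) (403/256)) ∧
    CN V Q 64 (9/10) (27/20) (Icc (392/256) (403/256)) :=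
  winBox h6 hF D_W3.hd D_W3.s0 D_W3.ss D_W3.ok D_W3.fb 90 135 100 _ _ _ _ _ D_W3.fw
    (392/256) (403/256) 64 (by norm_num) (by norm_num) (by norm_num) rfl
    (by norm_num [D_W3.hd]) (by norm_num [D_W3.hd]) (by norm_num [D_W3.hd]) rfl
    (by
      have : (lastS D_W3.s0 D_W3.ss).bb = 64 := by decide +kernel
      rw [this]; norm_num) (9/10) (27/20) (by norm_num) (by norm_num)

lemma boxW4 : WB V Q 64 D_W4.vlo D_W4.vhi D_W4.qlo D_W4.qhi D_W4.khi (Icc (403/256) (404/256)) ∧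
    CN V Q 64 (9/10) (27/20) (Icc (403/256) (404/256)) :=
  winBox h6 hF D_W4.hd D_W4.s0 D_W4.ss D_W4.ok D_W4.fb 90 135 100 _ _ _ _ _ D_W4.fw
    (403/256) (404/256) 64 (by norm_num) (by norm_num) (by norm_num) rfl
    (by norm_num [D_W4.hd]) (by norm_num [D_W4.hd]) (by norm_num [D_W4.hd]) rfl
    (by
      have : (lastS D_W4.s0 D_W4.ss).bb = 64 := by decide +kernel
      rw [this]; norm_num) (9/10) (27/20) (by norm_num) (by norm_num)

lemma boxW5 : WB V Q 64000 D_W5.vlo D_W5.vhi D_W5.qlo D_W5.qhi D_W5.khi (Icc (1840/1024) (1860/1024)) ∧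
    CN V Q 64000 (17/20) (17/10) (Icc (1840/1024) (1860/1024)) :=
  winBox h6 hF D_W5.hd D_W5.s0 D_W5.ss D_W5.ok D_W5.fb 85 170 100 _ _ _ _ _ D_W5.fw
    (1840/1024) (1860/1024) 64000 (by norm_num) (by norm_num) (by norm_num) rfl
    (by norm_num [D_W5.hd]) (by norm_num [D_W5.hd]) (by norm_num [D_W5.hd]) rfl
    (by
      have : (lastS D_W5.s0 D_W5.ss).bb = 64000 := by decide +kernel
      rw [this]; norm_num) (17/20) (17/10) (by norm_num) (by norm_num)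

lemma boxW6 : WB V Q 64000 D_W6.vlo D_W6.vhi D_W6.qlo D_W6.qhi D_W6.khi (Icc (1860/1024) (1885/1024)) ∧
    CN V Q 64000 (17/20) (17/10) (Icc (1860/1024) (1885/1024)) :=
  winBox h6 hF D_W6.hd D_W6.s0 D_W6.ss D_W6.ok D_W6.fb 85 170 100 _ _ _ _ _ D_W6.fw
    (1860/1024) (1885/1024) 64000 (by norm_num) (by norm_num) (by norm_num) rfl
    (by norm_num [D_W6.hd]) (by norm_num [D_W6.hd]) (by norm_num [D_W6.hd]) rfl
    (by
      have : (lastS D_W6.s0 D_W6.ss).bb = 64000 := by decide +kernel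
      rw [this]; norm_num) (17/20) (17/10) (by norm_num) (by norm_num)

lemma boxW7 : WB V Q 64000 D_W7.vlo D_W7.vhi D_W7.qlo D_W7.qhi D_W7.khi (Icc (1885/1024) (1905/1024)) ∧
    CN V Q 64000 (17/20) (17/10) (Icc (1885/1024) (1905/1024)) :=
  winBox h6 hF D_W7.hd D_W7.s0 D_W7.ss D_W7.ok D_W7.fb 85 170 100 _ _ _ _ _ D_W7.fw
    (1885/1024) (1905/1024) 64000 (by norm_num) (by norm_num) (by norm_num) rfl
    (by norm_num [D_W7.hd]) (by norm_num [D_W7.hd]) (by norm_num [D_W7.hd]) rfl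
    (by
      have : (lastS D_W7.s0 D_W7.ss).bb = 64000 := by decide +kernel
      rw [this]; norm_num) (17/20) (17/10) (by norm_num) (by norm_num)

lemma boxW8 : WB V Q 64000 D_W8.vlo D_W8.vhi D_W8.qlo D_W8.qhi D_W8.khi (Icc (1905/1024) (1910/1024)) ∧
    CN V Q 64000 (17/20) (17/10) (Icc (1905/1024) (1910/1024)) :=
  winBox h6 hF D_W8.hd D_W8.s0 D_W8.ss D_W8.ok D_W8.fb 85 170 100 _ _ _ _ _ D_W8.fw
    (1905/1024) (1910/1024) 64000 (by norm_num) (by norm_num) (by norm_num) rfl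
    (by norm_num [D_W8.hd]) (by norm_num [D_W8.hd]) (by norm_num [D_W8.hd]) rfl
    (by
      have : (lastS D_W8.s0 D_W8.ss).bb = 64000 := by decide +kernel
      rw [this]; norm_num) (17/20) (17/10) (by norm_num) (by norm_num)

end boxes

/-- bounds in scaled coordinates on a box -/
def WX (V Q : ℝ → ℝ → ℝ) (T0 X ε xm C4 : ℝ) (I : Set ℝ) : Prop :=
  ∀ a ∈ I, (∀ t ∈ Icc 0 T0, 0 < V a t) ∧ X * V a T0 < xm ∧ X * Q a T0 < ε ∧
    X * Q a T0 ≤ X * V a T0 ∧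
    (0 < X * Q a T0 → 3 * C4 < X * V a T0 - X * Q a T0 →
      (X * V a T0 - X * Q a T0 - 3 * C4) ^ 2 * (X * Q a T0) < (xm - 3 * C4 - ε) ^ 2 * ε)

lemma wx_of {V Q : ℝ → ℝ → ℝ} {T0 : ℝ} {vlo vhi qlo qhi khi : ℚ} {I : Set ℝ} (X ε xm C4 K q : ℝ)
    (hX : 0 < X) (h : WB V Q T0 vlo vhi qlo qhi khi I) (h1 : X * vhi < xm) (h2 : X * qhi < ε)
    (h3 : (qhi : ℝ) ≤ vlo) (h4 : X * khi ≤ K) (h5 : X * qhi ≤ q) (hq : 0 ≤ q)
    (hK : 3 * C4 < K → (K - 3 * C4) ^ 2 * q < (xm - 3 * C4 - ε) ^ 2 * ε) :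
    WX V Q T0 X ε xm C4 I := by
  intro a ha
  obtain ⟨g0, g1, g2, g3, g4, g5⟩ := h a ha
  have k1 : X * V a T0 ≤ X * vhi := mul_le_mul_of_nonneg_left g2 hX.le
  have k2 : X * Q a T0 ≤ X * qhi := mul_le_mul_of_nonneg_left g4 hX.le
  have k3 : X * (V a T0 - Q a T0) ≤ X * khi := mul_le_mul_of_nonneg_left g5 hX.le
  refine ⟨g0, by linarith, by linarith, mul_le_mul_of_nonneg_left (by linarith) hX.le, ?_⟩
  intro hp hc
  have k4 : X * V a T0 - X * Q a T0 - 3 * C4 ≤ K - 3 * C4 := by linarith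
  have k5 : (X * V a T0 - X * Q a T0 - 3 * C4) ^ 2 ≤ (K - 3 * C4) ^ 2 :=
    pow_le_pow_left₀ (by linarith) k4 2
  refine lt_of_le_of_lt (mul_le_mul k5 (k2.trans h5) hp.le (sq_nonneg _)) (hK (by linarith))

lemma wx_union {V Q : ℝ → ℝ → ℝ} {T0 X ε xm C4 x y z : ℝ}
    (h1 : WX V Q T0 X ε xm C4 (Icc x y)) (h2 : WX V Q T0 X ε xm C4 (Icc y z)) :
    WX V Q T0 X ε xm C4 (Icc x z) := fun a ha =>
  (le_total a y).elim (fun h => h1 a ⟨ha.1, h⟩) fun h => h2 a ⟨h, ha.2⟩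

/-- the general window -/
lemma awGen (h11 : P11_window) (V Q : ℝ → ℝ → ℝ) (hF : Fam V Q) (hTc : TCont V)
    (A B T X ε xm c1 c2 : ℝ) (hA : 0 < A) (hAB : A < B) (hT : 0 < T) (hX : 0 < X)
    (hTX : T ^ 2 = X ^ 3) (hε : 0 < ε) (hxm : 0 < xm) (h1 : 0 < c1) (h1' : c1 < 1) (h2 : 1 < c2)
    (z0 Gm C4 : ℝ) (hz0 : z0 = 1 / T ^ 2) (hG : Gm = 4 * xm ^ 3 + 7 * z0 * xm ^ 6)
    (hC : C4 = xm ^ 4 + z0 * xm ^ 7)
    (n1 : c2 ^ 2 * Gm < c2 - 1) (n2 : c2 * Gm < 2 / 3) (n3 : C4 < 2 / 3 * ε)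
    (n4 : 3 * C4 + ε < xm)
    (hW : WX V Q T X ε xm C4 (Icc A B)) (hCN : CN V Q T c1 c2 (Icc A B))
    (hQA : X * Q A T < 0) (hQB : 3 / 2 * C4 < X * Q B T) :
    ∃ α ∈ Ioo A B, ZOn V (Ico A α) ∧ IncOn V (Ico A α) ∧ (∀ T, ¬ IsT V α T) ∧
      (∀ (κ Bm L C : ℝ), 0 ≤ κ → 0 ≤ L → 0 ≤ C →
        (∀ c ∈ Icc c1 c2, ∀ ξ ∈ Icc ε xm, ∀ z ∈ Icc (0:ℝ) z0,
          |ε * (1 - 2 * c / 3) - ξ / 3 + c * (ξ ^ 4 + z * ξ ^ 7)| < κ) →
        (∀ a ∈ Icc A B, 0 < X * Q a T → z0 * (X * Q a T) ^ 3 ≤ Bm * ε ^ 3) →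
        ExitHyp ε xm Bm L C → L * κ + 2 * C * Bm < 1 →
        ZOn V (Ioc α B) ∧ DecOn V (Ioc α B)) := by
  have lV : ∀ a, LX V a (Real.log T) = X * V a T := fun a => lx_eq V a T X hT hX hTX
  have lQ : ∀ a, LX Q a (Real.log T) = X * Q a T := fun a => lx_eq Q a T X hT hX hTX
  have hp := h11 V Q A B (Real.log T) ε xm c1 c2 z0 Gm C4 hF hTc hA hAB hε hxm h1 h1' h2
    (by rw [hz0, exp_m2 T hT]) hG hC n1 n2 n3 n4
    (by rw [Real.exp_log hT]; exact fun a ha => (hW a ha).1)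
    (by
      intro a ha
      rw [lV, lQ]
      exact ⟨(hW a ha).2.1, (hW a ha).2.2.1, (hW a ha).2.2.2.1⟩)
    (by
      intro a ha
      rw [lV, lQ]
      exact (hW a ha).2.2.2.2)
    (by
      intro a ha b hb hab
      rw [lV, lQ, lV, lQ]
      obtain ⟨u1, u2, u3⟩ := hCN a ha b hb hab
      refine ⟨?_, ?_, ?_⟩
      · have := mul_pos hX u1; linarith
      · have := mul_lt_mul_of_pos_left u2 hX
        have e : c1 * (X * Q b T - X * Q a T) = X * (c1 * (Q b T - Q a T)) := by ring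
        rw [e]; linarith
      · have := mul_lt_mul_of_pos_left u3 hX
        have e : c2 * (X * Q b T - X * Q a T) = X * (c2 * (Q b T - Q a T)) := by ring
        rw [e]; linarith)
    (by rw [lQ]; exact hQA) (by rw [lQ]; exact hQB)
  obtain ⟨α, hα, z1, z2, z3, z4⟩ := hp
  refine ⟨α, hα, z1, z2, z3, ?_⟩
  intro κ Bm L C k1 k2 k3 k4 k5 k6 k7
  refine z4 κ Bm L C k1 k2 k3 k4 ?_ k6 k7
  intro a ha
  rw [lQ]
  exact k5 a ha

lemma wxW1 {V Q : ℝ → ℝ → ℝ} {I : Set ℝ}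
    (h : WB V Q 64 D_W1.vlo D_W1.vhi D_W1.qlo D_W1.qhi D_W1.khi I) :
    WX V Q 64 16 (3/16) (9/25) ((9/25) ^ 4 + 1 / 64 ^ 2 * (9/25) ^ 7) I := by
  refine wx_of 16 (3/16) (9/25) _ (1317/5000) 0 (by norm_num) h ?_ ?_ ?_ ?_ ?_ (by norm_num)
    (by norm_num)
  · unfold D_W1.vhi; push_cast; norm_num
  · unfold D_W1.qhi; push_cast; norm_num
  · unfold D_W1.qhi D_W1.vlo; push_cast; norm_num
  · unfold D_W1.khi; push_cast; norm_num
  · unfold D_W1.qhi; push_cast; norm_num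

lemma wxW2 {V Q : ℝ → ℝ → ℝ} {I : Set ℝ}
    (h : WB V Q 64 D_W2.vlo D_W2.vhi D_W2.qlo D_W2.qhi D_W2.khi I) :
    WX V Q 64 16 (3/16) (9/25) ((9/25) ^ 4 + 1 / 64 ^ 2 * (9/25) ^ 7) I := by
  refine wx_of 16 (3/16) (9/25) _ (319/1250) (1/2000) (by norm_num) h ?_ ?_ ?_ ?_ ?_ (by norm_num)
    (by norm_num)
  · unfold D_W2.vhi; push_cast; norm_num
  · unfold D_W2.qhi; push_cast; norm_num
  · unfold D_W2.qhi D_W2.vlo; push_cast; norm_num
  · unfold D_W2.khi; push_cast; norm_num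
  · unfold D_W2.qhi; push_cast; norm_num

lemma wxW3 {V Q : ℝ → ℝ → ℝ} {I : Set ℝ}
    (h : WB V Q 64 D_W3.vlo D_W3.vhi D_W3.qlo D_W3.qhi D_W3.khi I) :
    WX V Q 64 16 (3/16) (9/25) ((9/25) ^ 4 + 1 / 64 ^ 2 * (9/25) ^ 7) I := by
  refine wx_of 16 (3/16) (9/25) _ (2583/10000) (21/400) (by norm_num) h ?_ ?_ ?_ ?_ ?_ (by norm_num)
    (by norm_num)
  · unfold D_W3.vhi; push_cast; norm_num
  · unfold D_W3.qhi; push_cast; norm_num
  · unfold D_W3.qhi D_W3.vlo; push_cast; norm_num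
  · unfold D_W3.khi; push_cast; norm_num
  · unfold D_W3.qhi; push_cast; norm_num

lemma wxW4 {V Q : ℝ → ℝ → ℝ} {I : Set ℝ}
    (h : WB V Q 64 D_W4.vlo D_W4.vhi D_W4.qlo D_W4.qhi D_W4.khi I) :
    WX V Q 64 16 (3/16) (9/25) ((9/25) ^ 4 + 1 / 64 ^ 2 * (9/25) ^ 7) I := by
  refine wx_of 16 (3/16) (9/25) _ (2587/10000) (553/10000) (by norm_num) h ?_ ?_ ?_ ?_ ?_ (by norm_num)
    (by norm_num)
  · unfold D_W4.vhi; push_cast; norm_num
  · unfold D_W4.qhi; push_cast; norm_num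
  · unfold D_W4.qhi D_W4.vlo; push_cast; norm_num
  · unfold D_W4.khi; push_cast; norm_num
  · unfold D_W4.qhi; push_cast; norm_num

lemma wxW5 {V Q : ℝ → ℝ → ℝ} {I : Set ℝ}
    (h : WB V Q 64000 D_W5.vlo D_W5.vhi D_W5.qlo D_W5.qhi D_W5.khi I) :
    WX V Q 64000 1600 (1/20) (19/50) ((19/50) ^ 4 + 1 / 64000 ^ 2 * (19/50) ^ 7) I := by
  refine wx_of 1600 (1/20) (19/50) _ (3113/10000) 0 (by norm_num) h ?_ ?_ ?_ ?_ ?_ (by norm_num)
    (by norm_num)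
  · unfold D_W5.vhi; push_cast; norm_num
  · unfold D_W5.qhi; push_cast; norm_num
  · unfold D_W5.qhi D_W5.vlo; push_cast; norm_num
  · unfold D_W5.khi; push_cast; norm_num
  · unfold D_W5.qhi; push_cast; norm_num

lemma wxW6 {V Q : ℝ → ℝ → ℝ} {I : Set ℝ}
    (h : WB V Q 64000 D_W6.vlo D_W6.vhi D_W6.qlo D_W6.qhi D_W6.khi I) :
    WX V Q 64000 1600 (1/20) (19/50) ((19/50) ^ 4 + 1 / 64000 ^ 2 * (19/50) ^ 7) I := by
  refine wx_of 1600 (1/20) (19/50) _ (3067/10000) 0 (by norm_num) h ?_ ?_ ?_ ?_ ?_ (by norm_num)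
    (by norm_num)
  · unfold D_W6.vhi; push_cast; norm_num
  · unfold D_W6.qhi; push_cast; norm_num
  · unfold D_W6.qhi D_W6.vlo; push_cast; norm_num
  · unfold D_W6.khi; push_cast; norm_num
  · unfold D_W6.qhi; push_cast; norm_num

lemma wxW7 {V Q : ℝ → ℝ → ℝ} {I : Set ℝ}
    (h : WB V Q 64000 D_W7.vlo D_W7.vhi D_W7.qlo D_W7.qhi D_W7.khi I) :
    WX V Q 64000 1600 (1/20) (19/50) ((19/50) ^ 4 + 1 / 64000 ^ 2 * (19/50) ^ 7) I := by
  refine wx_of 1600 (1/20) (19/50) _ (192/625) (341/10000) (by norm_num) h ?_ ?_ ?_ ?_ ?_ (by norm_num)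
    (by norm_num)
  · unfold D_W7.vhi; push_cast; norm_num
  · unfold D_W7.qhi; push_cast; norm_num
  · unfold D_W7.qhi D_W7.vlo; push_cast; norm_num
  · unfold D_W7.khi; push_cast; norm_num
  · unfold D_W7.qhi; push_cast; norm_num

lemma wxW8 {V Q : ℝ → ℝ → ℝ} {I : Set ℝ}
    (h : WB V Q 64000 D_W8.vlo D_W8.vhi D_W8.qlo D_W8.qhi D_W8.khi I) :
    WX V Q 64000 1600 (1/20) (19/50) ((19/50) ^ 4 + 1 / 64000 ^ 2 * (19/50) ^ 7) I := by
  refine wx_of 1600 (1/20) (19/50) _ (1541/5000) (11/250) (by norm_num) h ?_ ?_ ?_ ?_ ?_ (by norm_num)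
    (by norm_num)
  · unfold D_W8.vhi; push_cast; norm_num
  · unfold D_W8.qhi; push_cast; norm_num
  · unfold D_W8.qhi D_W8.vlo; push_cast; norm_num
  · unfold D_W8.khi; push_cast; norm_num
  · unfold D_W8.qhi; push_cast; norm_num

/-- **AW1** -/
theorem aw1 (h6 : S6_final) (h11 : P11_window) (hE : AE) : AW1 := by
  intro V Q hF hTc
  have b1 := boxW1 h6 hF
  have b2 := boxW2 h6 hF
  have b3 := boxW3 h6 hF
  have b4 := boxW4 h6 hF
  have hW := wx_union (wx_union (wx_union (wxW1 b1.1) (wxW2 b2.1)) (wxW3 b3.1)) (wxW4 b4.1)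
  have hC : CN V Q 64 (9/10) (27/20) (Icc (353/256) (404/256)) :=
    cn_glue (cn_glue (cn_glue b1.2 b2.2 (by norm_num) (by norm_num)) b3.2 (by norm_num)
      (by norm_num)) b4.2 (by norm_num) (by norm_num)
  have hA : 16 * Q (353/256) 64 < 0 := by
    have h := (b1.1 (353/256) ⟨le_rfl, by norm_num⟩).2.2.2.2.1
    have : (D_W1.qhi : ℝ) < 0 := by unfold D_W1.qhi; push_cast; norm_num
    linarith
  have hB : 3 / 2 * ((9/25 : ℝ) ^ 4 + 1 / 64 ^ 2 * (9/25) ^ 7) < 16 * Q (404/256) 64 := by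
    have h := (b4.1 (404/256) ⟨by norm_num, le_rfl⟩).2.2.2.1
    have h2 : (1/32 : ℝ) < 16 * D_W4.qlo := by unfold D_W4.qlo; push_cast; norm_num
    norm_num at h2 ⊢
    linarith
  obtain ⟨α, hα, z1, z2, z3, z4⟩ := awGen h11 V Q hF hTc (353/256) (404/256) 64 16 (3/16) (9/25)
    (9/10) (27/20) (by norm_num) (by norm_num) (by norm_num) (by norm_num) (by norm_num)
    (by norm_num) (by norm_num) (by norm_num) (by norm_num) (by norm_num) (1 / 64 ^ 2) _ _ rfl rfl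
    rfl (by norm_num) (by norm_num) (by norm_num) (by norm_num) hW hC hA hB
  obtain ⟨L, C, hL, hC0, hEx, hLC⟩ := hE
  have hk1 : ∀ c ∈ Icc (9/10 : ℝ) (27/20), ∀ ξ ∈ Icc (3/16 : ℝ) (9/25),
      ∀ z ∈ Icc (0:ℝ) (1 / 64 ^ 2),
      |3/16 * (1 - 2 * c / 3) - ξ / 3 + c * (ξ ^ 4 + z * ξ ^ 7)| < 2/25 := by
    intro c hc ξ hξ z hz
    have h1 := hc.1
    have h2 := hc.2
    have x1 := hξ.1
    have x2 := hξ.2
    have z1' := hz.1
    have z2' := hz.2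
    have hξ0 : 0 ≤ ξ := by linarith
    have hc0 : 0 ≤ c := by linarith
    have p3 : ξ ^ 3 ≤ (9/25) ^ 3 := pow_le_pow_left₀ hξ0 x2 3
    have p4 : ξ ^ 4 ≤ (9/25) ^ 4 := pow_le_pow_left₀ hξ0 x2 4
    have p6 : ξ ^ 6 ≤ (9/25) ^ 6 := pow_le_pow_left₀ hξ0 x2 6
    have p7 : 0 ≤ ξ ^ 7 := pow_nonneg hξ0 7
    -- tangent line of `ξ ^ 4` at `9/25`
    have tl : (9/25 : ℝ) ^ 4 + 4 * (9/25) ^ 3 * (ξ - 9/25) ≤ ξ ^ 4 := by
      have : ξ ^ 4 - ((9/25 : ℝ) ^ 4 + 4 * (9/25) ^ 3 * (ξ - 9/25)) =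
          (ξ - 9/25) ^ 2 * (ξ ^ 2 + 2 * (9/25) * ξ + 3 * (9/25) ^ 2) := by ring
      have h3 : 0 ≤ (ξ - 9/25) ^ 2 * (ξ ^ 2 + 2 * (9/25) * ξ + 3 * (9/25) ^ 2) := by positivity
      linarith
    rw [abs_lt]
    constructor
    · have e1 : 0 ≤ c * (z * ξ ^ 7) := mul_nonneg hc0 (mul_nonneg z1' p7)
      have e2 : (27/20 - c) * (1/8 - ξ ^ 4) ≥ 0 := by
        refine mul_nonneg (by linarith) ?_
        norm_num at p4
        linarith
      norm_num at tl ⊢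
      nlinarith
    · have e1 : z * ξ ^ 7 ≤ 1 / 64 ^ 2 * ξ ^ 7 := mul_le_mul_of_nonneg_right z2' p7
      have e2 : ξ ^ 7 ≤ (9/25) ^ 6 * ξ := by
        have : ξ ^ 7 = ξ ^ 6 * ξ := by ring
        rw [this]
        exact mul_le_mul_of_nonneg_right p6 hξ0
      have e3 : ξ ^ 4 ≤ (9/25) ^ 3 * ξ := by
        have : ξ ^ 4 = ξ ^ 3 * ξ := by ring
        rw [this]
        exact mul_le_mul_of_nonneg_right p3 hξ0
      have e4 : ξ ^ 4 + z * ξ ^ 7 ≤ 1/20 * ξ := by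
        norm_num at e1 e2 e3 ⊢
        linarith
      have e5 : c * (ξ ^ 4 + z * ξ ^ 7) ≤ 27/20 * (1/20 * ξ) :=
        mul_le_mul h2 e4 (by positivity) (by norm_num)
      linarith
  have hk2 : ∀ a ∈ Icc (353/256 : ℝ) (404/256), 0 < 16 * Q a 64 →
      1 / 64 ^ 2 * (16 * Q a 64) ^ 3 ≤ 1 / 2 ^ 17 * (3/16) ^ 3 := by
    intro a ha hp
    -- `16 Q ≤ 1/18`
    have hq : 16 * Q a 64 ≤ 1/18 := by
      rcases le_total a (378/256) with h | h
      · have := (b1.1 a ⟨ha.1, h⟩).2.2.2.2.1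
        have h2 : 16 * (D_W1.qhi : ℝ) ≤ 1/18 := by unfold D_W1.qhi; push_cast; norm_num
        linarith
      rcases le_total a (392/256) with h' | h'
      · have := (b2.1 a ⟨h, h'⟩).2.2.2.2.1
        have h2 : 16 * (D_W2.qhi : ℝ) ≤ 1/18 := by unfold D_W2.qhi; push_cast; norm_num
        linarith
      rcases le_total a (403/256) with h'' | h''
      · have := (b3.1 a ⟨h', h''⟩).2.2.2.2.1
        have h2 : 16 * (D_W3.qhi : ℝ) ≤ 1/18 := by unfold D_W3.qhi; push_cast; norm_num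
        linarith
      · have := (b4.1 a ⟨h'', ha.2⟩).2.2.2.2.1
        have h2 : 16 * (D_W4.qhi : ℝ) ≤ 1/18 := by unfold D_W4.qhi; push_cast; norm_num
        linarith
    have h3 : (16 * Q a 64) ^ 3 ≤ (1/18) ^ 3 := pow_le_pow_left₀ hp.le hq 3
    norm_num at h3 ⊢
    linarith
  obtain ⟨y1, y2⟩ := z4 (2/25) (1 / 2 ^ 17) L C (by norm_num) hL hC0 hk1 hk2 hEx hLC
  exact ⟨α, hα, z1, z2, z3, y1, y2⟩

/-- **AW2** -/
theorem aw2 (h6 : S6_final) (h11 : P11_window) : AW2 := by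
  intro V Q hF hTc
  have b1 := boxW5 h6 hF
  have b2 := boxW6 h6 hF
  have b3 := boxW7 h6 hF
  have b4 := boxW8 h6 hF
  have hW := wx_union (wx_union (wx_union (wxW5 b1.1) (wxW6 b2.1)) (wxW7 b3.1)) (wxW8 b4.1)
  have hC : CN V Q 64000 (17/20) (17/10) (Icc (1840/1024) (1910/1024)) :=
    cn_glue (cn_glue (cn_glue b1.2 b2.2 (by norm_num) (by norm_num)) b3.2 (by norm_num)
      (by norm_num)) b4.2 (by norm_num) (by norm_num)
  have hA : 1600 * Q (1840/1024) 64000 < 0 := by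
    have h := (b1.1 (1840/1024) ⟨le_rfl, by norm_num⟩).2.2.2.2.1
    have : (D_W5.qhi : ℝ) < 0 := by unfold D_W5.qhi; push_cast; norm_num
    linarith
  have hB : 3 / 2 * ((19/50 : ℝ) ^ 4 + 1 / 64000 ^ 2 * (19/50) ^ 7) <
      1600 * Q (1910/1024) 64000 := by
    have h := (b4.1 (1910/1024) ⟨by norm_num, le_rfl⟩).2.2.2.1
    have h2 : (32/1000 : ℝ) < 1600 * D_W8.qlo := by unfold D_W8.qlo; push_cast; norm_num
    norm_num at h2 ⊢
    linarith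
  obtain ⟨α, hα, z1, z2, z3, -⟩ := awGen h11 V Q hF hTc (1840/1024) (1910/1024) 64000 1600 (1/20)
    (19/50) (17/20) (17/10) (by norm_num) (by norm_num) (by norm_num) (by norm_num) (by norm_num)
    (by norm_num) (by norm_num) (by norm_num) (by norm_num) (by norm_num) (1 / 64000 ^ 2) _ _ rfl
    rfl rfl (by norm_num) (by norm_num) (by norm_num) (by norm_num) hW hC hA hB
  exact ⟨α, hα, z1, z2, z3⟩

end Pool.Agent.W2helper59.LN
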