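import Pool.Agent.W2helper59.LN.AR

set_option autoImplicit false

namespace Pool.Agent.W2helper59.LN

open Set

theorem ma_of (hR1 : AR1) (hR2 : AR2) (hW1 : AW1) (hW2 : AW2) {V Q : ℝ → ℝ → ℝ}
    (hF : Fam V Q) (hT : TCont V) : MA V := by
  obtain ⟨z1, β1, b1, b1', d1, i1⟩ := hR1 V Q hF hT
  obtain ⟨z2, β2, b2, b2', d2, i2⟩ := hR2 V Q hF hT
  obtain ⟨α1, ⟨a1, a1'⟩, w1, w2, w3, w4, w5⟩ := hW1 V Q hF hT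
  obtain ⟨α2, ⟨a2, a2'⟩, w6, w7, w8⟩ := hW2 V Q hF hT
  refine ⟨β1, α1, β2, α2, b1, b1'.trans a1, a1'.trans b2, b2'.trans a2, ?_, w3, ?_, w8, d1,
    ?_, ?_, ?_⟩
  · refine zon_union z1 w1 fun a ha => ?_
    rcases le_total a (353/256) with h | h
    · exact Or.inl ⟨ha.1, h⟩
    · exact Or.inr ⟨h, ha.2⟩
  · refine zon_union (zon_union w4 z2 (K := Ioc α1 (1840/1024)) fun a ha => ?_) w6
      fun a ha => ?_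
    · rcases le_total a (404/256) with h | h
      · exact Or.inl ⟨ha.1, h⟩
      · exact Or.inr ⟨h, ha.2⟩
    · rcases le_total a (1840/1024) with h | h
      · exact Or.inl ⟨ha.1, h⟩
      · exact Or.inr ⟨h, ha.2⟩
  · exact inc_glue (353/256) i1 w2 ⟨b1'.le, le_rfl⟩ ⟨le_rfl, a1⟩ (w1 _ ⟨le_rfl, a1⟩)
      fun a ha => ⟨fun h => ⟨ha.1, h⟩, fun h => ⟨h, ha.2⟩⟩
  · exact dec_glue (404/256) w5 d2 ⟨a1', le_rfl⟩ ⟨le_rfl, b2.le⟩ (w4 _ ⟨a1', le_rfl⟩)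
      fun a ha => ⟨fun h => ⟨ha.1, h⟩, fun h => ⟨h, ha.2⟩⟩
  · exact inc_glue (1840/1024) i2 w7 ⟨b2'.le, le_rfl⟩ ⟨le_rfl, a2⟩ (w6 _ ⟨le_rfl, a2⟩)
      fun a ha => ⟨fun h => ⟨ha.1, h⟩, fun h => ⟨h, ha.2⟩⟩

end Pool.Agent.W2helper59.LN
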