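import Pool.Agent.W2helper59.LN.Asm0
import Pool.Agent.W2helper40.LN.P10ab
import Pool.Agent.W2helper59.LN.D_A1
import Pool.Agent.W2helper59.LN.D_D1
import Pool.Agent.W2helper59.LN.D_D2
import Pool.Agent.W2helper59.LN.D_C1
import Pool.Agent.W2helper59.LN.D_I1
import Pool.Agent.W2helper59.LN.D_I2
import Pool.Agent.W2helper59.LN.D_I3
import Pool.Agent.W2helper59.LN.D_D3
import Pool.Agent.W2helper59.LN.D_D4
import Pool.Agent.W2helper59.LN.D_D5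
import Pool.Agent.W2helper59.LN.D_D6
import Pool.Agent.W2helper59.LN.D_C2
import Pool.Agent.W2helper59.LN.D_I4
import Pool.Agent.W2helper59.LN.D_I5

set_option autoImplicit false

namespace Pool.Agent.W2helper59.LN

open Set

/-- a regular box -/
lemma regBox (h6 : S6_final) {V Q : ℝ → ℝ → ℝ} (hF : Fam V Q) (hT : TCont V)
    (hd : Hdr) (s : StepD) (l : List StepD) (hl : l ≠ []) (hc : chainOK hd (s :: l) = true)
    (hb : finB hd s = true) (m M1 : ℚ) (hz : finZ hd (lastS s l) m = true)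
    (hlp : finLip hd (lastS s l) M1 = true) (x y : ℝ) (h0 : 0 < x) (hxy : x < y)
    (ha : s.C = s.H) (hA : hd.A0 = hd.Q0) (hA' : hd.A1 = hd.Q1)
    (e1 : (hd.A0 : ℝ) / 2 ^ hd.e = (x + y) / 2) (e2 : (hd.A1 : ℝ) / 2 ^ hd.e = y - x)
    (e5 : hd.B0 = 2 ^ hd.e) (e6 : hd.B1 = 0) :
    ZOn V (Icc x y) ∧ (finSign hd (lastS s l) (-1) = true → DecOn V (Icc x y)) ∧
    (finSign hd (lastS s l) 1 = true → IncOn V (Icc x y)) ∧
    (finConv hd (lastS s l) = true → ∃ β ∈ Icc x y, DecOn V (Icc x β) ∧ IncOn V (Icc β y)) := by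
  obtain ⟨ω, κ, h1, -⟩ := h6 hd s l hc hb
  have hb0 : (hd.b0 : ℝ) = 1 := by
    have : hd.b0 = 1 := by
      unfold Hdr.b0
      rw [e5]
      push_cast
      exact div_self (by positivity)
    rw [this]; norm_num
  have hadm : BAdm hd 1 := by
    unfold BAdm
    rw [hb0]
    simp only [sub_self, abs_zero]
    have : (0:ℚ) ≤ sc hd.bt := by unfold sc; positivity
    exact_mod_cast this
  obtain ⟨hB, hD, hI, hC, -⟩ := h1 m M1 hl hz hlp 1 hadm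
  have ea : (s.a : ℝ) = 0 := by
    have : s.a = 0 := by
      unfold StepD.a
      rw [ha]; simp
    rw [this]; norm_num
  have f1 : hd.a0 = (x + y) / 2 := e1
  have f2 : hd.a1 = y - x := e2
  have f3 : hd.q0 = (x + y) / 2 := by
    rw [← e1]; unfold Hdr.q0; rw [hA]
  have f4 : hd.q1 = y - x := by
    rw [← e2]; unfold Hdr.q1; rw [hA']
  have f6 : hd.b1 = 0 := by unfold Hdr.b1; rw [e6]; simp
  rw [ea, f1, f2, f3, f4, f6] at hB
  have hp := Pool.Agent.W2helper40.LN.p10_regular V Q ((x + y) / 2) (y - x) _ _ _ _ _ _ hF hT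
    (by linarith) (by linarith) hB
  have g1 : (x + y) / 2 - (y - x) / 2 = x := by ring
  have g2 : (x + y) / 2 + (y - x) / 2 = y := by ring
  rw [g1, g2] at hp
  exact ⟨hp.1, fun h => hp.2.1 (hD h), fun h => hp.2.2.1 (hI h), fun h => hp.2.2.2 (hC h)⟩

/-! ### gluing -/

lemma zon_union {V : ℝ → ℝ → ℝ} {I J K : Set ℝ} (h1 : ZOn V I) (h2 : ZOn V J)
    (h : K ⊆ I ∪ J) : ZOn V K := fun a ha => (h ha).elim (h1 a) (h2 a)

lemma dec_mono {V : ℝ → ℝ → ℝ} {I J : Set ℝ} (h1 : DecOn V J) (h : I ⊆ J) : DecOn V I :=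
  fun a ha b hb => h1 a (h ha) b (h hb)

lemma inc_mono {V : ℝ → ℝ → ℝ} {I J : Set ℝ} (h1 : IncOn V J) (h : I ⊆ J) : IncOn V I :=
  fun a ha b hb => h1 a (h ha) b (h hb)

/-- glue at a common point `c` -/
lemma dec_glue {V : ℝ → ℝ → ℝ} {I J K : Set ℝ} (c : ℝ) (h1 : DecOn V I) (h2 : DecOn V J)
    (hc1 : c ∈ I) (hc2 : c ∈ J) (hz : ∃ T, IsT V c T)
    (hK : ∀ a ∈ K, (a ≤ c → a ∈ I) ∧ (c ≤ a → a ∈ J)) : DecOn V K := by
  intro a ha b hb hab Ta Tb hTa hTb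
  obtain ⟨T, hT⟩ := hz
  rcases le_total b c with h | h
  · exact h1 a ((hK a ha).1 (by linarith)) b ((hK b hb).1 h) hab Ta Tb hTa hTb
  · rcases le_total c a with h' | h'
    · exact h2 a ((hK a ha).2 h') b ((hK b hb).2 h) hab Ta Tb hTa hTb
    · rcases h'.lt_or_eq with h'' | h''
      · rcases h.lt_or_eq with h3 | h3
        · exact (h2 c hc2 b ((hK b hb).2 h) h3 T Tb hT hTb).trans
            (h1 a ((hK a ha).1 h') c hc1 h'' Ta T hTa hT)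
        · subst h3
          exact h1 a ((hK a ha).1 h') c hc1 h'' Ta Tb hTa hTb
      · subst h''
        exact h2 a hc2 b ((hK b hb).2 h) hab Ta Tb hTa hTb

lemma inc_glue {V : ℝ → ℝ → ℝ} {I J K : Set ℝ} (c : ℝ) (h1 : IncOn V I) (h2 : IncOn V J)
    (hc1 : c ∈ I) (hc2 : c ∈ J) (hz : ∃ T, IsT V c T)
    (hK : ∀ a ∈ K, (a ≤ c → a ∈ I) ∧ (c ≤ a → a ∈ J)) : IncOn V K := by
  intro a ha b hb hab Ta Tb hTa hTb
  obtain ⟨T, hT⟩ := hz
  rcases le_total b c with h | h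
  · exact h1 a ((hK a ha).1 (by linarith)) b ((hK b hb).1 h) hab Ta Tb hTa hTb
  · rcases le_total c a with h' | h'
    · exact h2 a ((hK a ha).2 h') b ((hK b hb).2 h) hab Ta Tb hTa hTb
    · rcases h'.lt_or_eq with h'' | h''
      · rcases h.lt_or_eq with h3 | h3
        · exact (h1 a ((hK a ha).1 h') c hc1 h'' Ta T hTa hT).trans
            (h2 c hc2 b ((hK b hb).2 h) h3 T Tb hT hTb)
        · subst h3
          exact h1 a ((hK a ha).1 h') c hc1 h'' Ta Tb hTa hTb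
      · subst h''
        exact h2 a hc2 b ((hK b hb).2 h) hab Ta Tb hTa hTb

lemma dec_icc {V : ℝ → ℝ → ℝ} {x y z : ℝ} (h1 : DecOn V (Icc x y)) (h2 : DecOn V (Icc y z))
    (hxy : x ≤ y) (hyz : y ≤ z) (hz : ZOn V (Icc x y)) : DecOn V (Icc x z) :=
  dec_glue y h1 h2 ⟨hxy, le_rfl⟩ ⟨le_rfl, hyz⟩ (hz y ⟨hxy, le_rfl⟩)
    fun a ha => ⟨fun h => ⟨ha.1, h⟩, fun h => ⟨h, ha.2⟩⟩

lemma inc_icc {V : ℝ → ℝ → ℝ} {x y z : ℝ} (h1 : IncOn V (Icc x y)) (h2 : IncOn V (Icc y z))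
    (hxy : x ≤ y) (hyz : y ≤ z) (hz : ZOn V (Icc x y)) : IncOn V (Icc x z) :=
  inc_glue y h1 h2 ⟨hxy, le_rfl⟩ ⟨le_rfl, hyz⟩ (hz y ⟨hxy, le_rfl⟩)
    fun a ha => ⟨fun h => ⟨ha.1, h⟩, fun h => ⟨h, ha.2⟩⟩

lemma zon_icc {V : ℝ → ℝ → ℝ} {x y z : ℝ} (h1 : ZOn V (Icc x y)) (h2 : ZOn V (Icc y z)) :
    ZOn V (Icc x z) :=
  zon_union h1 h2 fun a ha => (le_total a y).elim (fun h => Or.inl ⟨ha.1, h⟩)
    fun h => Or.inr ⟨h, ha.2⟩

/-! ### the boxes -/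

section boxes
variable (h6 : S6_final) {V Q : ℝ → ℝ → ℝ} (hF : Fam V Q) (hT : TCont V)
include h6 hF hT

lemma boxD1 : ZOn V (Icc (171/256) (207/256)) ∧ DecOn V (Icc (171/256) (207/256)) := by
  have h := regBox h6 hF hT D_D1.hd D_D1.s0 D_D1.ss (by simp [D_D1.ss]) D_D1.ok D_D1.fb D_D1.m
    D_D1.M1 D_D1.fz D_D1.fl (171/256) (207/256) (by norm_num) (by norm_num) rfl rfl rfl
    (by norm_num [D_D1.hd]) (by norm_num [D_D1.hd]) (by norm_num [D_D1.hd]) rfl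
  exact ⟨h.1, h.2.1 D_D1.fs⟩

lemma boxD2 : ZOn V (Icc (207/256) (226/256)) ∧ DecOn V (Icc (207/256) (226/256)) := by
  have h := regBox h6 hF hT D_D2.hd D_D2.s0 D_D2.ss (by simp [D_D2.ss]) D_D2.ok D_D2.fb D_D2.m
    D_D2.M1 D_D2.fz D_D2.fl (207/256) (226/256) (by norm_num) (by norm_num) rfl rfl rfl
    (by norm_num [D_D2.hd]) (by norm_num [D_D2.hd]) (by norm_num [D_D2.hd]) rfl
  exact ⟨h.1, h.2.1 D_D2.fs⟩

lemma boxC1 : ZOn V (Icc (226/256) (250/256)) ∧ ∃ β ∈ Icc (226/256 : ℝ) (250/256),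
    DecOn V (Icc (226/256) β) ∧ IncOn V (Icc β (250/256)) := by
  have h := regBox h6 hF hT D_C1.hd D_C1.s0 D_C1.ss (by simp [D_C1.ss]) D_C1.ok D_C1.fb D_C1.m
    D_C1.M1 D_C1.fz D_C1.fl (226/256) (250/256) (by norm_num) (by norm_num) rfl rfl rfl
    (by norm_num [D_C1.hd]) (by norm_num [D_C1.hd]) (by norm_num [D_C1.hd]) rfl
  exact ⟨h.1, h.2.2.2 D_C1.fs⟩

lemma boxI1 : ZOn V (Icc (250/256) (293/256)) ∧ IncOn V (Icc (250/256) (293/256)) := by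
  have h := regBox h6 hF hT D_I1.hd D_I1.s0 D_I1.ss (by simp [D_I1.ss]) D_I1.ok D_I1.fb D_I1.m
    D_I1.M1 D_I1.fz D_I1.fl (250/256) (293/256) (by norm_num) (by norm_num) rfl rfl rfl
    (by norm_num [D_I1.hd]) (by norm_num [D_I1.hd]) (by norm_num [D_I1.hd]) rfl
  exact ⟨h.1, h.2.2.1 D_I1.fs⟩

lemma boxI2 : ZOn V (Icc (293/256) (341/256)) ∧ IncOn V (Icc (293/256) (341/256)) := by
  have h := regBox h6 hF hT D_I2.hd D_I2.s0 D_I2.ss (by simp [D_I2.ss]) D_I2.ok D_I2.fb D_I2.m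
    D_I2.M1 D_I2.fz D_I2.fl (293/256) (341/256) (by norm_num) (by norm_num) rfl rfl rfl
    (by norm_num [D_I2.hd]) (by norm_num [D_I2.hd]) (by norm_num [D_I2.hd]) rfl
  exact ⟨h.1, h.2.2.1 D_I2.fs⟩

lemma boxI3 : ZOn V (Icc (341/256) (353/256)) ∧ IncOn V (Icc (341/256) (353/256)) := by
  have h := regBox h6 hF hT D_I3.hd D_I3.s0 D_I3.ss (by simp [D_I3.ss]) D_I3.ok D_I3.fb D_I3.m
    D_I3.M1 D_I3.fz D_I3.fl (341/256) (353/256) (by norm_num) (by norm_num) rfl rfl rfl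
    (by norm_num [D_I3.hd]) (by norm_num [D_I3.hd]) (by norm_num [D_I3.hd]) rfl
  exact ⟨h.1, h.2.2.1 D_I3.fs⟩

lemma boxD3 : ZOn V (Icc (404/256) (1632/1024)) ∧ DecOn V (Icc (404/256) (1632/1024)) := by
  have h := regBox h6 hF hT D_D3.hd D_D3.s0 D_D3.ss (by simp [D_D3.ss]) D_D3.ok D_D3.fb D_D3.m
    D_D3.M1 D_D3.fz D_D3.fl (404/256) (1632/1024) (by norm_num) (by norm_num) rfl rfl rfl
    (by norm_num [D_D3.hd]) (by norm_num [D_D3.hd]) (by norm_num [D_D3.hd]) rfl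
  exact ⟨h.1, h.2.1 D_D3.fs⟩

lemma boxD4 : ZOn V (Icc (1632/1024) (1653/1024)) ∧ DecOn V (Icc (1632/1024) (1653/1024)) := by
  have h := regBox h6 hF hT D_D4.hd D_D4.s0 D_D4.ss (by simp [D_D4.ss]) D_D4.ok D_D4.fb D_D4.m
    D_D4.M1 D_D4.fz D_D4.fl (1632/1024) (1653/1024) (by norm_num) (by norm_num) rfl rfl rfl
    (by norm_num [D_D4.hd]) (by norm_num [D_D4.hd]) (by norm_num [D_D4.hd]) rfl
  exact ⟨h.1, h.2.1 D_D4.fs⟩

lemma boxD5 : ZOn V (Icc (1653/1024) (1680/1024)) ∧ DecOn V (Icc (1653/1024) (1680/1024)) := by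
  have h := regBox h6 hF hT D_D5.hd D_D5.s0 D_D5.ss (by simp [D_D5.ss]) D_D5.ok D_D5.fb D_D5.m
    D_D5.M1 D_D5.fz D_D5.fl (1653/1024) (1680/1024) (by norm_num) (by norm_num) rfl rfl rfl
    (by norm_num [D_D5.hd]) (by norm_num [D_D5.hd]) (by norm_num [D_D5.hd]) rfl
  exact ⟨h.1, h.2.1 D_D5.fs⟩

lemma boxD6 : ZOn V (Icc (1680/1024) (1700/1024)) ∧ DecOn V (Icc (1680/1024) (1700/1024)) := by
  have h := regBox h6 hF hT D_D6.hd D_D6.s0 D_D6.ss (by simp [D_D6.ss]) D_D6.ok D_D6.fb D_D6.m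
    D_D6.M1 D_D6.fz D_D6.fl (1680/1024) (1700/1024) (by norm_num) (by norm_num) rfl rfl rfl
    (by norm_num [D_D6.hd]) (by norm_num [D_D6.hd]) (by norm_num [D_D6.hd]) rfl
  exact ⟨h.1, h.2.1 D_D6.fs⟩

lemma boxC2 : ZOn V (Icc (1700/1024) (1740/1024)) ∧ ∃ β ∈ Icc (1700/1024 : ℝ) (1740/1024),
    DecOn V (Icc (1700/1024) β) ∧ IncOn V (Icc β (1740/1024)) := by
  have h := regBox h6 hF hT D_C2.hd D_C2.s0 D_C2.ss (by simp [D_C2.ss]) D_C2.ok D_C2.fb D_C2.m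
    D_C2.M1 D_C2.fz D_C2.fl (1700/1024) (1740/1024) (by norm_num) (by norm_num) rfl rfl rfl
    (by norm_num [D_C2.hd]) (by norm_num [D_C2.hd]) (by norm_num [D_C2.hd]) rfl
  exact ⟨h.1, h.2.2.2 D_C2.fs⟩

lemma boxI4 : ZOn V (Icc (1740/1024) (1790/1024)) ∧ IncOn V (Icc (1740/1024) (1790/1024)) := by
  have h := regBox h6 hF hT D_I4.hd D_I4.s0 D_I4.ss (by simp [D_I4.ss]) D_I4.ok D_I4.fb D_I4.m
    D_I4.M1 D_I4.fz D_I4.fl (1740/1024) (1790/1024) (by norm_num) (by norm_num) rfl rfl rfl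
    (by norm_num [D_I4.hd]) (by norm_num [D_I4.hd]) (by norm_num [D_I4.hd]) rfl
  exact ⟨h.1, h.2.2.1 D_I4.fs⟩

lemma boxI5 : ZOn V (Icc (1790/1024) (1840/1024)) ∧ IncOn V (Icc (1790/1024) (1840/1024)) := by
  have h := regBox h6 hF hT D_I5.hd D_I5.s0 D_I5.ss (by simp [D_I5.ss]) D_I5.ok D_I5.fb D_I5.m
    D_I5.M1 D_I5.fz D_I5.fl (1790/1024) (1840/1024) (by norm_num) (by norm_num) rfl rfl rfl
    (by norm_num [D_I5.hd]) (by norm_num [D_I5.hd]) (by norm_num [D_I5.hd]) rfl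
  exact ⟨h.1, h.2.2.1 D_I5.fs⟩

/-- the region near `0` -/
lemma boxA1 : ZOn V (Ioc 0 (171/256)) ∧ DecOn V (Ioc 0 (171/256)) := by
  obtain ⟨ω, κ, h1, -⟩ := h6 D_A1.hd D_A1.s0 D_A1.ss D_A1.ok D_A1.fb
  have hadm : BAdm D_A1.hd (77/512) := by
    unfold BAdm
    have : (D_A1.hd.b0 : ℝ) = 77/512 := by
      have : D_A1.hd.b0 = 77/512 := by norm_num [Hdr.b0, D_A1.hd]
      rw [this]; norm_num
    rw [this]
    simp only [sub_self, abs_zero]
    have : (0:ℚ) ≤ sc D_A1.hd.bt := by unfold sc; positivity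
    exact_mod_cast this
  obtain ⟨hB, -⟩ := h1 D_A1.m D_A1.M1 (by simp [D_A1.ss]) D_A1.fz D_A1.fl (77/512) hadm
  have ea : (D_A1.s0.a : ℝ) = 0 := by
    have : D_A1.s0.a = 0 := by
      unfold StepD.a
      have : D_A1.s0.C = D_A1.s0.H := rfl
      rw [this]; simp
    rw [this]; norm_num
  have f1 : D_A1.hd.a0 = 1 := by norm_num [Hdr.a0, D_A1.hd]
  have f2 : D_A1.hd.a1 = 0 := by norm_num [Hdr.a1, D_A1.hd]
  have f3 : D_A1.hd.q0 = 1 := by norm_num [Hdr.q0, D_A1.hd]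
  have f4 : D_A1.hd.q1 = 0 := by norm_num [Hdr.q1, D_A1.hd]
  have f6 : D_A1.hd.b1 = 77/256 := by norm_num [Hdr.b1, D_A1.hd]
  rw [ea, f1, f2, f3, f4, f6] at hB
  have hnum : ((lastS D_A1.s0 D_A1.ss).bb / (lastS D_A1.s0 D_A1.ss).a) * (D_A1.M1 / D_A1.m) <
      (77/256) / (2 * (77/512 + 77/256/2)) := by decide +kernel
  refine Pool.Agent.W2helper40.LN.p10_small V Q (77/512) (77/256) _ _ _ _ (171/256) _ _ hF
    (by norm_num) (by norm_num) (by norm_num) (by norm_num) hB ?_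
  have h := (Rat.cast_lt (K := ℝ)).2 hnum
  push_cast at h
  exact h

end boxes

theorem ar1 (h6 : S6_final) : AR1 := by
  intro V Q hF hT
  have hA := boxA1 h6 hF hT
  have hD1 := boxD1 h6 hF hT
  have hD2 := boxD2 h6 hF hT
  obtain ⟨hCz, β, hβ, hCd, hCi⟩ := boxC1 h6 hF hT
  have hI1 := boxI1 h6 hF hT
  have hI2 := boxI2 h6 hF hT
  have hI3 := boxI3 h6 hF hT
  -- zeros
  have z1 : ZOn V (Icc (171/256) (353/256)) :=
    zon_icc (zon_icc (zon_icc (zon_icc (zon_icc hD1.1 hD2.1) hCz) hI1.1) hI2.1) hI3.1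
  refine ⟨?_, β, ?_, ?_, ?_, ?_⟩
  · refine zon_union hA.1 z1 fun a ha => ?_
    rcases le_total a (171/256) with h | h
    · exact Or.inl ⟨ha.1, h⟩
    · exact Or.inr ⟨h, ha.2⟩
  · have := hβ.1; norm_num at this; linarith
  · have := hβ.2; norm_num at this; linarith
  · have d1 : DecOn V (Icc (171/256) β) := by
      refine dec_icc (dec_icc hD1.2 hD2.2 (by norm_num) (by norm_num) hD1.1) hCd (by norm_num)
        hβ.1 (zon_icc hD1.1 hD2.1)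
    have hβ1 := hβ.1
    refine dec_glue (171/256) hA.2 d1 ⟨by norm_num, le_rfl⟩
      ⟨le_rfl, by norm_num at hβ1; linarith⟩
      (z1 _ ⟨le_rfl, by norm_num⟩) fun a ha => ⟨fun h => ⟨ha.1, h⟩, fun h => ⟨h, ha.2⟩⟩
  · have i1 : IncOn V (Icc β (293/256)) := by
      refine inc_icc hCi hI1.2 hβ.2 (by norm_num) fun a ha => hCz a ⟨hβ.1.trans ha.1, ha.2⟩
    have i2 : IncOn V (Icc β (341/256)) := by
      refine inc_icc i1 hI2.2 ?_ (by norm_num) fun a ha => z1 a ⟨?_, ?_⟩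
      · have := hβ.2; norm_num at this; linarith
      · have := hβ.1; have := ha.1; norm_num at *; linarith
      · have := ha.2; norm_num at *; linarith
    refine inc_icc i2 hI3.2 ?_ (by norm_num) fun a ha => z1 a ⟨?_, ?_⟩
    · have := hβ.2; norm_num at this; linarith
    · have := hβ.1; have := ha.1; norm_num at *; linarith
    · have := ha.2; norm_num at *; linarith

theorem ar2 (h6 : S6_final) : AR2 := by
  intro V Q hF hT
  have hD3 := boxD3 h6 hF hT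
  have hD4 := boxD4 h6 hF hT
  have hD5 := boxD5 h6 hF hT
  have hD6 := boxD6 h6 hF hT
  obtain ⟨hCz, β, hβ, hCd, hCi⟩ := boxC2 h6 hF hT
  have hI4 := boxI4 h6 hF hT
  have hI5 := boxI5 h6 hF hT
  have z1 : ZOn V (Icc (404/256) (1700/1024)) :=
    zon_icc (zon_icc (zon_icc hD3.1 hD4.1) hD5.1) hD6.1
  have z2 : ZOn V (Icc (404/256) (1840/1024)) :=
    zon_icc (zon_icc (zon_icc z1 hCz) hI4.1) hI5.1
  refine ⟨z2, β, ?_, ?_, ?_, ?_⟩
  · have := hβ.1; norm_num at *; linarith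
  · have := hβ.2; norm_num at *; linarith
  · have d1 : DecOn V (Icc (404/256) (1700/1024)) :=
      dec_icc (dec_icc (dec_icc hD3.2 hD4.2 (by norm_num) (by norm_num) hD3.1) hD5.2
        (by norm_num) (by norm_num) (zon_icc hD3.1 hD4.1)) hD6.2 (by norm_num) (by norm_num)
        (zon_icc (zon_icc hD3.1 hD4.1) hD5.1)
    exact dec_icc d1 hCd (by norm_num) hβ.1 z1
  · have i1 : IncOn V (Icc β (1790/1024)) := by
      refine inc_icc hCi hI4.2 hβ.2 (by norm_num) fun a ha => hCz a ⟨hβ.1.trans ha.1, ha.2⟩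
    refine inc_icc i1 hI5.2 ?_ (by norm_num) fun a ha => z2 a ⟨?_, ?_⟩
    · have := hβ.2; norm_num at *; linarith
    · have := hβ.1; have := ha.1; norm_num at *; linarith
    · have := ha.2; norm_num at *; linarith

end Pool.Agent.W2helper59.LN
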