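import Pool.Agent.W2helper59.LN.Eng

/-!
# S03669: assembly statements

Data modules (all kernel checked): `Pool.Agent.W2helper59.LN.D_X` with `hd`, `s0`, `ss`,
`ok : chainOK hd (s0 :: ss) = true`, `fb : finB hd s0 = true`, and
* for zero boxes `m`, `M1`, `fz`, `fl`, `fs` (`D1…D6` decreasing, `I1…I5` increasing, `C1 C2` convex;
  `A1` and `E1 E2 E3` have no `fs`),
* for window boxes `vlo vhi qlo qhi khi`, `fw` (cone constants `p1/100`, `p2/100`).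

Parameter intervals (`a = α0 + r δ`, `δ ∈ [-1/2,1/2]`):
`D1 [171,207]/256`, `D2 [207,226]/256`, `C1 [226,250]/256`, `I1 [250,293]/256`,
`I2 [293,341]/256`, `I3 [341,353]/256`, window 1 at `t0 = 64`: `W1 [353,378]/256`,
`W2 [378,392]/256`, `W3 [392,403]/256`, `W4 [403,404]/256` (`c1 = 90/100`, `c2 = 135/100`),
`D3 [1616,1632]/1024`, `D4 [1632,1653]/1024`, `D5 [1653,1680]/1024`, `D6 [1680,1700]/1024`,
`C2 [1700,1740]/1024`, `I4 [1740,1790]/1024`, `I5 [1790,1840]/1024`, window 2 at `t0 = 64000`: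
`W5 [1840,1860]/1024`, `W6 [1860,1885]/1024`, `W7 [1885,1905]/1024`, `W8 [1905,1910]/1024`
(`c1 = 85/100`, `c2 = 170/100`).
Exit boxes (`t0 = 1`, `v(1) = ξ`, `q(1) = 3/16`, `B ∈ [0, 2^-17]`): `E1 ξ ∈ [192,255]/1024`,
`E2 [255,315]/1024`, `E3 [315,369]/1024`.
Small region `A1`: `v(0) = 1`, `B ∈ [0, 77/256]`.
-/

set_option autoImplicit false

namespace Pool.Agent.W2helper59.LN

open Set

/-- **AE** (exit hypothesis; from `S6_final`, `P10_exit`, data `E1 E2 E3`; `n = 3`,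
`CB = nu1/(g a)`; `κ = 2/25`, `L ≈ 7.4`). -/
def AE : Prop := ∃ L C : ℝ, 0 ≤ L ∧ 0 ≤ C ∧ ExitHyp (3 / 16) (9 / 25) (1 / 2 ^ 17) L C ∧
  L * (2 / 25) + 2 * C * (1 / 2 ^ 17) < 1

/-- **AW1** (window 1; from `S6_final`, `P11_window`, `AE`, data `W1 … W4`).
`s0 = log 64`, `e^{s0} = 64`, `e^{2 s0/3} = 16`, `z0 = 1/4096`, `ε = 3/16`, `xm = 9/25`,
`c1 = 9/10`, `c2 = 27/20`, `κ = 2/25`, `Bm = 1/2^17`.
For `a` in a box: `V a = ω δ`, `Q a = κ δ` on `[0,64]` by `Fam.uniq` (as `ω > 0`).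
The strict pair cone is additive, so it passes from the boxes to `[A,B]`.
Trap: in each box `(16 khi - 3C4)² · 16 qhi < (xm-3C4-ε)² ε` when `qhi > 0`. -/
def AW1 : Prop := ∀ V Q : ℝ → ℝ → ℝ, Fam V Q → TCont V →
  ∃ α ∈ Ioo (353 / 256 : ℝ) (404 / 256), ZOn V (Ico (353 / 256) α) ∧
    IncOn V (Ico (353 / 256) α) ∧ (∀ T, ¬ IsT V α T) ∧
    ZOn V (Ioc α (404 / 256)) ∧ DecOn V (Ioc α (404 / 256))

/-- **AW2** (window 2; from `S6_final`, `P11_window`, data `W5 … W8`).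
`s0 = log 64000`, `e^{2 s0/3} = 1600`, `z0 = 1/64000²`, `ε = 1/20`, `xm = 19/50`,
`c1 = 17/20`, `c2 = 17/10`. -/
def AW2 : Prop := ∀ V Q : ℝ → ℝ → ℝ, Fam V Q → TCont V →
  ∃ α ∈ Ioo (1840 / 1024 : ℝ) (1910 / 1024), ZOn V (Ico (1840 / 1024) α) ∧
    IncOn V (Ico (1840 / 1024) α) ∧ (∀ T, ¬ IsT V α T)

/-- **AR1** (regular boxes of the first component) -/
def AR1 : Prop := ∀ V Q : ℝ → ℝ → ℝ, Fam V Q → TCont V →
  ZOn V (Ioc 0 (353 / 256)) ∧ ∃ β : ℝ, 0 < β ∧ β < 353 / 256 ∧ DecOn V (Ioc 0 β) ∧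
    IncOn V (Icc β (353 / 256))

/-- **AR2** (regular boxes of the second component) -/
def AR2 : Prop := ∀ V Q : ℝ → ℝ → ℝ, Fam V Q → TCont V →
  ZOn V (Icc (404 / 256) (1840 / 1024)) ∧ ∃ β : ℝ, 404 / 256 < β ∧ β < 1840 / 1024 ∧
    DecOn V (Icc (404 / 256) β) ∧ IncOn V (Icc β (1840 / 1024))

end Pool.Agent.W2helper59.LN
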