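import Pool.Agent.W2helper59.LN.Eng

/-!
# S03669: putting the step checks of a chain together (keeps each kernel computation small)
-/

set_option autoImplicit false

namespace Pool.Agent.W2helper59.LN

theorem chainAux_nil' {hd : Hdr} {s : StepD} (h : stepOK hd s = true) :
    chainAux hd s [] = true := by
  simpa [chainAux] using h

theorem chainAux_cons' {hd : Hdr} {s s' : StepD} {l : List StepD}
    (h : (stepOK hd s && jumpOK hd s s') = true) (h2 : chainAux hd s' l = true) :
    chainAux hd s (s' :: l) = true := by
  simp only [chainAux, h, h2, Bool.and_self]

theorem chainOK_cons' {hd : Hdr} {s : StepD} {l : List StepD}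
    (h : startOK hd s = true) (h2 : chainAux hd s l = true) : chainOK hd (s :: l) = true := by
  simp only [chainOK, h, h2, Bool.and_self]

end Pool.Agent.W2helper59.LN
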